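import Mathlib

set_option autoImplicit false

/-!
Volume estimates for convex bodies in a product `ℝ × F`.
-/

namespace Pool.Agent.Lib.MP_87489e_co

open MeasureTheory Set Pointwise

variable {F : Type*} [NormedAddCommGroup F] [NormedSpace ℝ F] [MeasurableSpace F] [BorelSpace F]
  [FiniteDimensional ℝ F] (μ : Measure F) [μ.IsAddHaarMeasure]

/-- The fibre over `y`. -/
def fib (K : Set (ℝ × F)) (y : F) : Set ℝ := {t | (t, y) ∈ K}

omit [MeasurableSpace F] [BorelSpace F] [FiniteDimensional ℝ F] in
theorem fib_convex {K : Set (ℝ × F)} (hK : Convex ℝ K) (y : F) : Convex ℝ (fib K y) := by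
  intro s hs t ht a b ha hb hab
  have := hK hs ht ha hb hab
  have h2 : a • (s, y) + b • (t, y) = (a • s + b • t, y) := by
    ext
    · simp
    · simp [← add_smul, hab]
  rw [h2] at this
  exact this

omit [NormedSpace ℝ F] [MeasurableSpace F] [BorelSpace F] [FiniteDimensional ℝ F] in
theorem fib_compact {K : Set (ℝ × F)} (hK : IsCompact K) (y : F) : IsCompact (fib K y) := by
  have h1 : fib K y = Prod.fst '' (K ∩ (Prod.snd ⁻¹' {y})) := by
    ext t
    simp only [fib, mem_ofPred_eq, mem_image, mem_inter_iff, mem_preimage, mem_singleton_iff,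
      Prod.exists]
    constructor
    · intro h; exact ⟨t, y, ⟨h, rfl⟩, rfl⟩
    · rintro ⟨a, b, ⟨h, rfl⟩, rfl⟩; exact h
  rw [h1]
  apply IsCompact.image _ continuous_fst
  exact hK.inter_right (isClosed_singleton.preimage continuous_snd)

/-- Cone estimate: the volume of the projection of a convex body along a chord of length one. -/
theorem proj_le {K : Set (ℝ × F)} (hKc : IsCompact K) (hK : Convex ℝ K) {t0 : ℝ} {y0 : F}
    (h0 : (t0, y0) ∈ K) (h1 : (t0 + 1, y0) ∈ K) :
    μ (Prod.snd '' K) ≤ (Module.finrank ℝ F + 1 : ℕ) * ((volume : Measure ℝ).prod μ) K := by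
  set n := Module.finrank ℝ F with hn
  set K' := Prod.snd '' K with hK'
  have hK'c : IsCompact K' := hKc.image continuous_snd
  have hmK : MeasurableSet K := hKc.measurableSet
  have hmK' : MeasurableSet K' := hK'c.measurableSet
  -- the auxiliary set
  let g : ℝ × F → F := fun q => y0 + (1 - q.1)⁻¹ • (q.2 - y0)
  have hg : Measurable g := by
    have h1 : Measurable (fun q : ℝ × F => (1 - q.1)⁻¹) := by fun_prop
    have h2 : Measurable (fun q : ℝ × F => q.2 - y0) := by fun_prop
    exact (h1.smul h2).const_add y0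
  let T : Set (ℝ × F) := (Prod.fst ⁻¹' (Ioo 0 1)) ∩ g ⁻¹' K'
  have hT : MeasurableSet T := (measurable_fst measurableSet_Ioo).inter (hg hmK')
  -- first computation
  have hA : ((volume : Measure ℝ).prod μ) T = μ K' * ENNReal.ofReal (1 / (n + 1)) := by
    rw [Measure.prod_apply hT]
    have hsec : ∀ s : ℝ, μ (Prod.mk s ⁻¹' T) =
        (Ioo (0:ℝ) 1).indicator (fun s => ENNReal.ofReal ((1 - s) ^ n) * μ K') s := by
      intro s
      by_cases hs : s ∈ Ioo (0:ℝ) 1
      · rw [indicator_of_mem hs]
        have hs1 : (1 - s) ≠ 0 := by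
          have := hs.2; linarith
        have : Prod.mk s ⁻¹' T = AffineMap.homothety y0 (1 - s) '' K' := by
          ext y
          simp only [T, mem_preimage, mem_inter_iff, g, mem_image, AffineMap.homothety_apply,
            vsub_eq_sub, vadd_eq_add]
          constructor
          · rintro ⟨-, h⟩
            refine ⟨_, h, ?_⟩
            rw [add_sub_cancel_left, smul_smul, mul_inv_cancel₀ hs1, one_smul]
            abel
          · rintro ⟨w, hw, rfl⟩
            refine ⟨hs, ?_⟩
            rw [add_sub_cancel_right, smul_smul, inv_mul_cancel₀ hs1, one_smul]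
            simpa using hw
        rw [this, Measure.addHaar_image_homothety]
        congr 2
        rw [abs_of_nonneg]
        have := hs.2
        exact pow_nonneg (by linarith) _
      · rw [indicator_of_notMem hs]
        have : Prod.mk s ⁻¹' T = ∅ := by
          ext y
          simp only [T, mem_preimage, mem_inter_iff, mem_empty_iff_false, iff_false, not_and]
          intro h; exact absurd h hs
        rw [this, measure_empty]
    simp_rw [hsec]
    rw [lintegral_indicator measurableSet_Ioo, lintegral_mul_const]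
    · rw [mul_comm]
      congr 1
      rw [← ofReal_integral_eq_lintegral_ofReal]
      · congr 1
        rw [← integral_Ioc_eq_integral_Ioo, ← intervalIntegral.integral_of_le zero_le_one]
        have := intervalIntegral.integral_comp_sub_left (fun x : ℝ => x ^ n) (1 : ℝ)
          (a := 0) (b := 1)
        rw [this]
        simp [integral_pow]
      · have hc : Continuous (fun s : ℝ => (1 - s) ^ n) := by fun_prop
        exact (hc.integrableOn_Icc (a := 0) (b := 1)).mono_set Ioo_subset_Icc_self
      · refine (ae_restrict_iff' measurableSet_Ioo).mpr (Filter.Eventually.of_forall ?_)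
        intro s hs
        have := hs.2
        exact pow_nonneg (by linarith) _
    · fun_prop
  -- second computation
  have hB : ((volume : Measure ℝ).prod μ) T ≤ ((volume : Measure ℝ).prod μ) K := by
    rw [Measure.prod_apply_symm hT, Measure.prod_apply_symm hmK]
    apply lintegral_mono
    intro y
    have hfib : (fun x => (x, y)) ⁻¹' K = fib K y := rfl
    have key : ∀ s ∈ (fun x => (x, y)) ⁻¹' T, ENNReal.ofReal s ≤ volume (fib K y) := by
      intro s hs
      obtain ⟨hs1, hs2⟩ := hs
      simp only [mem_preimage] at hs1 hs2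
      obtain ⟨⟨τ, w⟩, hw, hwe⟩ := hs2
      simp only [g] at hwe
      have hs0 : 0 < s := hs1.1
      have hs' : s < 1 := hs1.2
      have hne : (1 - s) ≠ 0 := by linarith
      have hy : y = s • y0 + (1 - s) • w := by
        rw [hwe, smul_add, smul_smul, mul_inv_cancel₀ hne, one_smul, sub_smul, one_smul]
        abel
      have hc0 : (s * t0 + (1 - s) * τ, y) ∈ K := by
        have := hK h0 hw hs0.le (by linarith : (0:ℝ) ≤ 1 - s) (by ring)
        convert this using 1
        ext
        · simp
        · simp [hy]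
      have hc1 : (s * t0 + (1 - s) * τ + s, y) ∈ K := by
        have := hK h1 hw hs0.le (by linarith : (0:ℝ) ≤ 1 - s) (by ring)
        convert this using 1
        ext
        · simp; ring
        · simp [hy]
      have hsub : Icc (s * t0 + (1 - s) * τ) (s * t0 + (1 - s) * τ + s) ⊆ fib K y :=
        (fib_convex hK y).ordConnected.out hc0 hc1
      calc ENNReal.ofReal s = volume (Icc (s * t0 + (1 - s) * τ) (s * t0 + (1 - s) * τ + s)) := by
            rw [Real.volume_Icc]; congr 1; ring
        _ ≤ volume (fib K y) := measure_mono hsub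
    change volume ((fun x => (x, y)) ⁻¹' T) ≤ volume (fib K y)
    by_cases htop : volume (fib K y) = ⊤
    · rw [htop]; exact le_top
    · have hsub : (fun x => (x, y)) ⁻¹' T ⊆ Ioc 0 (volume (fib K y)).toReal := by
        intro s hs
        refine ⟨hs.1.1, ?_⟩
        have := key s hs
        exact (ENNReal.ofReal_le_iff_le_toReal htop).mp this
      calc volume ((fun x => (x, y)) ⁻¹' T) ≤ volume (Ioc 0 (volume (fib K y)).toReal) :=
            measure_mono hsub
        _ = volume (fib K y) := by
            rw [Real.volume_Ioc, sub_zero, ENNReal.ofReal_toReal htop]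
  -- conclusion
  have hn1 : ((n + 1 : ℕ) : ENNReal) ≠ 0 := by simp
  have hn2 : ((n + 1 : ℕ) : ENNReal) ≠ ⊤ := ENNReal.natCast_ne_top _
  have hcoef : ENNReal.ofReal (1 / (n + 1)) * ((n + 1 : ℕ) : ENNReal) = 1 := by
    have : ((n + 1 : ℕ) : ENNReal) = ENNReal.ofReal (n + 1) := by
      rw [ENNReal.ofReal_add (by positivity) (by norm_num)]
      simp
    rw [this, ← ENNReal.ofReal_mul (by positivity)]
    rw [one_div, inv_mul_cancel₀ (by positivity)]
    simp
  calc μ K' = μ K' * (ENNReal.ofReal (1 / (n + 1)) * ((n + 1 : ℕ) : ENNReal)) := by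
        rw [hcoef, mul_one]
    _ = ((n + 1 : ℕ) : ENNReal) * (μ K' * ENNReal.ofReal (1 / (n + 1))) := by ring
    _ = ((n + 1 : ℕ) : ENNReal) * ((volume : Measure ℝ).prod μ) T := by rw [hA]
    _ ≤ ((n + 1 : ℕ) : ENNReal) * ((volume : Measure ℝ).prod μ) K := by gcongr

omit [MeasurableSpace F] [BorelSpace F] [FiniteDimensional ℝ F] in
/-- The hull of `K` and its translate by one unit in the first direction. -/
theorem hull_eq {K : Set (ℝ × F)} (hK : Convex ℝ K) :
    convexHull ℝ (K ∪ (((1 : ℝ), (0 : F)) +ᵥ K)) =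
      {q | ∃ θ ∈ Icc (0:ℝ) 1, (q.1 - θ, q.2) ∈ K} := by
  apply Subset.antisymm
  · apply convexHull_min
    · rintro ⟨t, y⟩ (h | h)
      · exact ⟨0, by simp, by simpa using h⟩
      · obtain ⟨⟨t', y'⟩, h', he⟩ := h
        simp only [vadd_eq_add, Prod.mk_add_mk, zero_add, Prod.mk.injEq] at he
        obtain ⟨h1, h2⟩ := he
        refine ⟨1, by simp, ?_⟩
        simp only
        rw [← h1, ← h2]
        simpa using h'
    · rintro ⟨t, y⟩ ⟨θ, hθ, h⟩ ⟨t', y'⟩ ⟨θ', hθ', h'⟩ a b ha hb hab
      refine ⟨a * θ + b * θ', ⟨?_, ?_⟩, ?_⟩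
      · have := hθ.1; have := hθ'.1; positivity
      · have := hθ.2; have := hθ'.2; nlinarith
      · have := hK h h' ha hb hab
        convert this using 1
        ext
        · simp; ring
        · simp
  · rintro ⟨t, y⟩ ⟨θ, hθ, h⟩
    have h1 : (t - θ, y) ∈ convexHull ℝ (K ∪ (((1 : ℝ), (0 : F)) +ᵥ K)) :=
      subset_convexHull ℝ _ (Or.inl h)
    have h2 : (t - θ + 1, y) ∈ convexHull ℝ (K ∪ (((1 : ℝ), (0 : F)) +ᵥ K)) := by
      apply subset_convexHull ℝ _
      refine Or.inr ⟨(t - θ, y), h, ?_⟩
      simp [add_comm]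
    have := convex_convexHull ℝ (K ∪ (((1 : ℝ), (0 : F)) +ᵥ K)) h1 h2
      (by linarith [hθ.2] : (0:ℝ) ≤ 1 - θ) hθ.1 (by ring)
    convert this using 1
    ext
    · simp; ring
    · simp [← add_smul]

omit [NormedSpace ℝ F] [MeasurableSpace F] [BorelSpace F] [FiniteDimensional ℝ F] in
theorem hull_compact {K : Set (ℝ × F)} (hKc : IsCompact K) :
    IsCompact {q : ℝ × F | ∃ θ ∈ Icc (0:ℝ) 1, (q.1 - θ, q.2) ∈ K} := by
  have : {q : ℝ × F | ∃ θ ∈ Icc (0:ℝ) 1, (q.1 - θ, q.2) ∈ K} =
      (fun r : (ℝ × F) × ℝ => (r.1.1 + r.2, r.1.2)) '' (K ×ˢ Icc (0:ℝ) 1) := by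
    ext ⟨t, y⟩
    simp only [mem_ofPred_eq, mem_image, mem_prod, Prod.exists, Prod.mk.injEq]
    constructor
    · rintro ⟨θ, hθ, h⟩
      exact ⟨t - θ, y, θ, ⟨h, hθ⟩, by ring, rfl⟩
    · rintro ⟨a, b, c, ⟨h, hc⟩, rfl, rfl⟩
      exact ⟨c, hc, by simpa using h⟩
  rw [this]
  apply (hKc.prod isCompact_Icc).image
  fun_prop

/-- Exact volume of the hull of `K` and its unit translate. -/
theorem hull_volume {K : Set (ℝ × F)} (hKc : IsCompact K) (hK : Convex ℝ K) :
    ((volume : Measure ℝ).prod μ) (convexHull ℝ (K ∪ (((1 : ℝ), (0 : F)) +ᵥ K))) =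
      ((volume : Measure ℝ).prod μ) K + μ (Prod.snd '' K) := by
  rw [hull_eq hK]
  set N := {q : ℝ × F | ∃ θ ∈ Icc (0:ℝ) 1, (q.1 - θ, q.2) ∈ K} with hN
  have hNc : IsCompact N := hull_compact hKc
  have hmK' : MeasurableSet (Prod.snd '' K) := (hKc.image continuous_snd).measurableSet
  rw [Measure.prod_apply_symm hNc.measurableSet, Measure.prod_apply_symm hKc.measurableSet,
    ← lintegral_indicator_one hmK', ← lintegral_add_right _ (measurable_one.indicator hmK')]
  apply lintegral_congr
  intro y
  have hfibK : (fun x => (x, y)) ⁻¹' K = fib K y := rfl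
  have hfibN : (fun x => (x, y)) ⁻¹' N = fib N y := rfl
  rw [hfibK, hfibN]
  by_cases hy : y ∈ Prod.snd '' K
  · rw [indicator_of_mem hy]
    obtain ⟨⟨t1, y1⟩, h1, rfl⟩ := hy
    simp only
    have hne : (fib K y1).Nonempty := ⟨t1, h1⟩
    have hcon : IsConnected (fib K y1) := ⟨hne, (fib_convex hK y1).isPreconnected⟩
    have hIcc := eq_Icc_of_connected_compact hcon (fib_compact hKc y1)
    set α := sInf (fib K y1)
    set β := sSup (fib K y1)
    have hαβ : α ≤ β := by
      rw [hIcc] at hne
      exact nonempty_Icc.mp hne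
    have hNfib : fib N y1 = Icc α (β + 1) := by
      ext t
      simp only [fib, hN, mem_ofPred_eq]
      constructor
      · rintro ⟨θ, hθ, h⟩
        have : t - θ ∈ fib K y1 := h
        rw [hIcc] at this
        exact ⟨by linarith [this.1, hθ.1], by linarith [this.2, hθ.2]⟩
      · rintro ⟨hl, hr⟩
        have hmem : ∀ s, α ≤ s → s ≤ β → (s, y1) ∈ K := by
          intro s h1 h2
          have : s ∈ fib K y1 := by rw [hIcc]; exact ⟨h1, h2⟩
          exact this
        rcases le_total t β with h | h
        · exact ⟨0, by simp, hmem _ (by linarith) (by linarith)⟩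
        · exact ⟨t - β, ⟨by linarith, by linarith⟩, hmem _ (by linarith) (by linarith)⟩
    rw [hNfib, hIcc, Real.volume_Icc, Real.volume_Icc]
    simp only [Pi.one_apply]
    rw [← ENNReal.ofReal_one, ← ENNReal.ofReal_add (by linarith) zero_le_one]
    congr 1
    ring
  · rw [indicator_of_notMem hy]
    have e1 : fib K y = ∅ := by
      ext t
      simp only [fib, mem_ofPred_eq, mem_empty_iff_false, iff_false]
      intro h
      exact hy ⟨(t, y), h, rfl⟩
    have e2 : fib N y = ∅ := by
      ext t
      simp only [fib, hN, mem_ofPred_eq, mem_empty_iff_false, iff_false]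
      rintro ⟨θ, -, h⟩
      exact hy ⟨(t - θ, y), h, rfl⟩
    rw [e1, e2]
    simp

end Pool.Agent.Lib.MP_87489e_co
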