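import Mathlib
import Pool.Agent.Lib.MP_87489e_co.Fubini

set_option autoImplicit false

namespace Pool.Agent.Lib.MP_87489e_co

open MeasureTheory Set Pointwise

/-- splitting off the first coordinate -/
def hatL (n : ℕ) : (Fin (n + 1) → ℝ) →ₗ[ℝ] ℝ × (Fin n → ℝ) where
  toFun f := (f 0, fun j => f j.succ)
  map_add' f g := rfl
  map_smul' c f := rfl

theorem hatL_cont (n : ℕ) : Continuous (hatL n) := by
  refine Continuous.prodMk (continuous_apply 0) ?_
  exact continuous_pi fun j => continuous_apply _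

theorem hatL_inj (n : ℕ) : Function.Injective (hatL n) := by
  intro f g h
  have h1 : f 0 = g 0 := congrArg Prod.fst h
  have h2 : (fun j : Fin n => f j.succ) = fun j => g j.succ := congrArg Prod.snd h
  funext i
  refine Fin.cases h1 (fun j => congrFun h2 j) i

theorem hat_volume {n : ℕ} (K : Set (Fin (n + 1) → ℝ)) :
    ((volume : Measure ℝ).prod (volume : Measure (Fin n → ℝ))) (hatL n '' K) = volume K := by
  have hmp := volume_preserving_piFinSuccAbove (fun _ : Fin (n + 1) => ℝ) 0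
  have h1 := hmp.measure_preimage_equiv (hatL n '' K)
  rw [← Measure.volume_eq_prod, ← h1]
  congr 1
  have : ⇑(MeasurableEquiv.piFinSuccAbove (fun _ : Fin (n + 1) => ℝ) 0) = hatL n := by
    funext f
    rfl
  rw [this, preimage_image_eq _ (hatL_inj n)]

theorem hat_hull {n : ℕ} (K : Set (Fin (n + 1) → ℝ)) :
    hatL n '' (convexHull ℝ (K ∪ ((Pi.single 0 1 : Fin (n + 1) → ℝ) +ᵥ K))) =
      convexHull ℝ ((hatL n '' K) ∪ (((1 : ℝ), (0 : Fin n → ℝ)) +ᵥ (hatL n '' K))) := by
  rw [LinearMap.image_convexHull, image_union]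
  congr 2
  ext q
  constructor
  · rintro ⟨_, ⟨f, hf, rfl⟩, rfl⟩
    refine ⟨hatL n f, ⟨f, hf, rfl⟩, ?_⟩
    simp only [vadd_eq_add, map_add]
    congr 1
  · rintro ⟨_, ⟨f, hf, rfl⟩, rfl⟩
    refine ⟨(Pi.single 0 1 : Fin (n + 1) → ℝ) + f, ⟨f, hf, rfl⟩, ?_⟩
    simp only [vadd_eq_add, map_add]
    congr 1

theorem hat_single {n : ℕ} (j : Fin n) :
    (hatL n (Pi.single j.succ (1:ℝ))) = (0, Pi.single j 1) := by
  ext
  · simp [hatL]
  · simp [hatL, Pi.single_apply]

theorem hat_single_zero {n : ℕ} :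
    (hatL n (Pi.single 0 (1:ℝ))) = (1, 0) := by
  ext
  · simp [hatL]
  · simp [hatL]

/-- A convex body containing a unit chord in each coordinate direction has volume at least `1/n!`. -/
theorem volume_ge_of_chords : ∀ (n : ℕ) (K : Set (Fin n → ℝ)), IsCompact K → Convex ℝ K →
    K.Nonempty → (∀ i : Fin n, ∃ a ∈ K, a + Pi.single i 1 ∈ K) →
    ((n.factorial : ENNReal))⁻¹ ≤ volume K := by
  intro n
  induction n with
  | zero =>
    intro K _ _ hne _
    have : K = univ := by
      obtain ⟨x, hx⟩ := hne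
      ext y
      simp only [mem_univ, iff_true]
      rwa [Subsingleton.elim y x]
    rw [this]
    simp [MeasureTheory.volume_pi]
  | succ n ih =>
    intro K hKc hK hne hch
    set Kh := hatL n '' K with hKh
    have hKhc : IsCompact Kh := hKc.image (hatL_cont n)
    have hKhconv : Convex ℝ Kh := hK.linear_image (hatL n)
    obtain ⟨a, ha, ha1⟩ := hch 0
    have h0 : ((hatL n a).1, (hatL n a).2) ∈ Kh := ⟨a, ha, rfl⟩
    have h1 : ((hatL n a).1 + 1, (hatL n a).2) ∈ Kh := by
      refine ⟨_, ha1, ?_⟩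
      rw [map_add, hat_single_zero]
      ext
      · simp
      · simp
    have hproj := proj_le (volume : Measure (Fin n → ℝ)) hKhc hKhconv h0 h1
    rw [hat_volume] at hproj
    have hK' := ih (Prod.snd '' Kh) (hKhc.image continuous_snd)
      (hKhconv.linear_image (LinearMap.snd ℝ ℝ (Fin n → ℝ))) ((hne.image _).image _) (by
        intro i
        obtain ⟨b, hb, hb1⟩ := hch i.succ
        refine ⟨(hatL n b).2, ⟨hatL n b, ⟨b, hb, rfl⟩, rfl⟩, ?_⟩
        refine ⟨hatL n (b + Pi.single i.succ 1), ⟨_, hb1, rfl⟩, ?_⟩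
        rw [map_add, hat_single]
        rfl)
    have hfin : Module.finrank ℝ (Fin n → ℝ) = n := by simp
    rw [hfin] at hproj
    have h2 := hK'.trans hproj
    rw [Nat.factorial_succ, Nat.cast_mul]
    rw [ENNReal.mul_inv (Or.inl (by simp)) (Or.inl (ENNReal.natCast_ne_top _))]
    rw [ENNReal.inv_mul_le_iff (by simp) (ENNReal.natCast_ne_top _)]
    exact h2

/-- Lower bound for the hull of a convex body and a translate (in coordinates). -/
theorem hull_ge_of_chords {n : ℕ} {K : Set (Fin (n + 1) → ℝ)} (hKc : IsCompact K)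
    (hK : Convex ℝ K) (hch : ∀ i : Fin (n + 1), ∃ a ∈ K, a + Pi.single i 1 ∈ K) :
    ((n + 2 : ℕ) : ENNReal) * (((n + 1).factorial : ENNReal))⁻¹ ≤
      volume (convexHull ℝ (K ∪ ((Pi.single 0 1 : Fin (n + 1) → ℝ) +ᵥ K))) := by
  set Kh := hatL n '' K with hKh
  have hKhc : IsCompact Kh := hKc.image (hatL_cont n)
  have hKhconv : Convex ℝ Kh := hK.linear_image (hatL n)
  have hne : K.Nonempty := by
    obtain ⟨a, ha, -⟩ := hch 0
    exact ⟨a, ha⟩
  rw [← hat_volume, hat_hull, hull_volume _ hKhc hKhconv, hat_volume]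
  have hv := volume_ge_of_chords (n + 1) K hKc hK hne hch
  have hp := volume_ge_of_chords n (Prod.snd '' Kh) (hKhc.image continuous_snd)
      (hKhconv.linear_image (LinearMap.snd ℝ ℝ (Fin n → ℝ))) ((hne.image _).image _) (by
        intro i
        obtain ⟨b, hb, hb1⟩ := hch i.succ
        refine ⟨(hatL n b).2, ⟨hatL n b, ⟨b, hb, rfl⟩, rfl⟩, ?_⟩
        refine ⟨hatL n (b + Pi.single i.succ 1), ⟨_, hb1, rfl⟩, ?_⟩
        rw [map_add, hat_single]
        rfl)
  have hfac : ((n.factorial : ENNReal))⁻¹ = ((n + 1 : ℕ) : ENNReal) * (((n + 1).factorial : ENNReal))⁻¹ := by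
    rw [Nat.factorial_succ, Nat.cast_mul,
      ENNReal.mul_inv (Or.inl (by simp)) (Or.inl (ENNReal.natCast_ne_top _)), ← mul_assoc,
      ENNReal.mul_inv_cancel (by simp) (ENNReal.natCast_ne_top _), one_mul]
  calc ((n + 2 : ℕ) : ENNReal) * (((n + 1).factorial : ENNReal))⁻¹
      = (((n + 1).factorial : ENNReal))⁻¹ + ((n + 1 : ℕ) : ENNReal) * (((n + 1).factorial : ENNReal))⁻¹ := by
        push_cast; ring
    _ ≤ _ := by
        rw [← hfac]
        exact add_le_add hv hp

/-- Upper bound for the hull of a convex body and a translate meeting it (in coordinates). -/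
theorem hull_le {n : ℕ} {K : Set (Fin (n + 1) → ℝ)} (hKc : IsCompact K)
    (hK : Convex ℝ K) {a : Fin (n + 1) → ℝ} (ha : a ∈ K) (ha1 : a + Pi.single 0 1 ∈ K) :
    volume (convexHull ℝ (K ∪ ((Pi.single 0 1 : Fin (n + 1) → ℝ) +ᵥ K))) ≤
      ((n + 2 : ℕ) : ENNReal) * volume K := by
  set Kh := hatL n '' K with hKh
  have hKhc : IsCompact Kh := hKc.image (hatL_cont n)
  have hKhconv : Convex ℝ Kh := hK.linear_image (hatL n)
  have h0 : ((hatL n a).1, (hatL n a).2) ∈ Kh := ⟨a, ha, rfl⟩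
  have h1 : ((hatL n a).1 + 1, (hatL n a).2) ∈ Kh := by
    refine ⟨_, ha1, ?_⟩
    rw [map_add, hat_single_zero]
    ext
    · simp
    · simp
  rw [← hat_volume, hat_hull, hull_volume _ hKhc hKhconv]
  have hproj := proj_le (volume : Measure (Fin n → ℝ)) hKhc hKhconv h0 h1
  rw [hat_volume] at hproj ⊢
  have hfin : Module.finrank ℝ (Fin n → ℝ) = n := by simp
  rw [hfin] at hproj
  calc volume K + volume (Prod.snd '' Kh) ≤ volume K + ((n + 1 : ℕ) : ENNReal) * volume K :=
        by gcongr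
    _ = ((n + 2 : ℕ) : ENNReal) * volume K := by push_cast; ring

end Pool.Agent.Lib.MP_87489e_co
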