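import Mathlib

set_option autoImplicit false

/-!
The volume of `K + t L` as an integral over the whole space of the Jacobian of the sum of the two
metric projections.
-/

namespace Pool.Agent.Lib.MP_87489e_co

open MeasureTheory Set Pointwise
open scoped RealInnerProductSpace Topology

variable {E : Type*} [NormedAddCommGroup E] [InnerProductSpace ℝ E] [FiniteDimensional ℝ E]

/-- `π` is the metric projection onto `K`. -/
def IsProj (K : Set E) (π : E → E) : Prop :=
  (∀ x, π x ∈ K) ∧ ∀ x, ∀ y ∈ K, ⟪x - π x, y - π x⟫ ≤ 0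

omit [FiniteDimensional ℝ E] in
theorem exists_isProj {K : Set E} (hKc : IsCompact K) (hK : Convex ℝ K) (hne : K.Nonempty) :
    ∃ π : E → E, IsProj K π := by
  have h : ∀ u : E, ∃ v ∈ K, ∀ w ∈ K, ⟪u - v, w - v⟫ ≤ 0 := by
    intro u
    obtain ⟨v, hv, hmin⟩ := exists_norm_eq_iInf_of_complete_convex hne hKc.isComplete hK u
    exact ⟨v, hv, (norm_eq_iInf_iff_real_inner_le_zero hK hv).mp hmin⟩
  choose π h1 h2 using h
  exact ⟨π, h1, h2⟩

omit [FiniteDimensional ℝ E] in
theorem IsProj.mono {K : Set E} {π : E → E} (h : IsProj K π) (x y : E) :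
    ‖π x - π y‖ ^ 2 ≤ ⟪π x - π y, x - y⟫ := by
  have h1 := h.2 x (π y) (h.1 y)
  have h2 := h.2 y (π x) (h.1 x)
  have h3 : ‖π x - π y‖ ^ 2 = ⟪π x - π y, π x - π y⟫ := (real_inner_self_eq_norm_sq _).symm
  rw [h3]
  have h4 : ⟪x - π x, π y - π x⟫ + ⟪y - π y, π x - π y⟫ =
      ⟪π x - π y, π x - π y⟫ - ⟪π x - π y, x - y⟫ := by
    simp only [inner_sub_left, inner_sub_right]
    rw [real_inner_comm (π y) x, real_inner_comm (π x) x, real_inner_comm (π x) y,
      real_inner_comm (π y) y]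
    ring
  linarith

omit [FiniteDimensional ℝ E] in
theorem IsProj.dist_le {K : Set E} {π : E → E} (h : IsProj K π) (x y : E) :
    ‖π x - π y‖ ≤ ‖x - y‖ := by
  have h1 := h.mono x y
  have h2 := real_inner_le_norm (π x - π y) (x - y)
  by_cases h0 : ‖π x - π y‖ = 0
  · rw [h0]; exact norm_nonneg _
  · have hpos : 0 < ‖π x - π y‖ := lt_of_le_of_ne (norm_nonneg _) (Ne.symm h0)
    have : ‖π x - π y‖ * ‖π x - π y‖ ≤ ‖π x - π y‖ * ‖x - y‖ := by
      rw [← sq]; linarith
    exact le_of_mul_le_mul_left this hpos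

omit [FiniteDimensional ℝ E] in
theorem IsProj.unique {K : Set E} {π : E → E} (h : IsProj K π) {z q : E} (hq : q ∈ K)
    (hz : ∀ y ∈ K, ⟪z - q, y - q⟫ ≤ 0) : π z = q := by
  have h1 := h.2 z q hq
  have h2 := hz (π z) (h.1 z)
  have h3 : ⟪z - π z, q - π z⟫ + ⟪z - q, π z - q⟫ = ‖π z - q‖ ^ 2 := by
    rw [← real_inner_self_eq_norm_sq]
    simp only [inner_sub_left, inner_sub_right]
    rw [real_inner_comm (π z) q]
    ring
  have h4 : ‖π z - q‖ ^ 2 ≤ 0 := by linarith
  have h5 : ‖π z - q‖ = 0 := by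
    have := sq_nonneg ‖π z - q‖
    exact pow_eq_zero_iff (two_ne_zero) |>.mp (le_antisymm h4 this)
  exact sub_eq_zero.mp (norm_eq_zero.mp h5)

omit [FiniteDimensional ℝ E] in
theorem IsProj.fiber {K : Set E} {π : E → E} (h : IsProj K π) {x x' : E} (hx : π x = π x')
    {a b : ℝ} (ha : 0 ≤ a) (hb : 0 ≤ b) (hab : a + b = 1) : π (a • x + b • x') = π x := by
  apply h.unique (h.1 x)
  intro y hy
  have h1 := h.2 x y hy
  have h2 := h.2 x' y hy
  rw [← hx] at h2
  have : a • x + b • x' - π x = a • (x - π x) + b • (x' - π x) := by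
    have : π x = a • π x + b • π x := by rw [← add_smul, hab, one_smul]
    conv_lhs => rw [this]
    module
  rw [this, inner_add_left, real_inner_smul_left, real_inner_smul_left]
  nlinarith

/-- the sum map -/
def sumMap (πK πL : E → E) (t : ℝ) (x : E) : E := πK x + t • πL x

omit [FiniteDimensional ℝ E] in
theorem sumMap_lipschitz {K L : Set E} {πK πL : E → E} (hK : IsProj K πK) (hL : IsProj L πL)
    {t : ℝ} (ht : 0 ≤ t) : LipschitzWith (Real.toNNReal (1 + t)) (sumMap πK πL t) := by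
  apply LipschitzWith.of_dist_le_mul
  intro x y
  rw [dist_eq_norm, dist_eq_norm, Real.coe_toNNReal _ (by linarith)]
  have : sumMap πK πL t x - sumMap πK πL t y = (πK x - πK y) + t • (πL x - πL y) := by
    simp only [sumMap]; module
  rw [this]
  calc ‖(πK x - πK y) + t • (πL x - πL y)‖ ≤ ‖πK x - πK y‖ + ‖t • (πL x - πL y)‖ := norm_add_le _ _
    _ = ‖πK x - πK y‖ + t * ‖πL x - πL y‖ := by rw [norm_smul, Real.norm_of_nonneg ht]
    _ ≤ ‖x - y‖ + t * ‖x - y‖ := by
        gcongr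
        · exact hK.dist_le x y
        · exact hL.dist_le x y
    _ = (1 + t) * ‖x - y‖ := by ring

omit [FiniteDimensional ℝ E] in
theorem sumMap_mono {K L : Set E} {πK πL : E → E} (hK : IsProj K πK) (hL : IsProj L πL)
    {t : ℝ} (ht : 0 ≤ t) (x y : E) :
    ‖πK x - πK y‖ ^ 2 + t * ‖πL x - πL y‖ ^ 2 ≤
      ⟪sumMap πK πL t x - sumMap πK πL t y, x - y⟫ := by
  have : sumMap πK πL t x - sumMap πK πL t y = (πK x - πK y) + t • (πL x - πL y) := by
    simp only [sumMap]; module
  rw [this, inner_add_left, real_inner_smul_left]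
  have h1 := hK.mono x y
  have h2 := hL.mono x y
  nlinarith

omit [FiniteDimensional ℝ E] in
theorem sumMap_fiber {K L : Set E} {πK πL : E → E} (hK : IsProj K πK) (hL : IsProj L πL)
    {t : ℝ} (ht : 0 ≤ t) {x x' : E} (hx : sumMap πK πL t x = sumMap πK πL t x')
    {a b : ℝ} (ha : 0 ≤ a) (hb : 0 ≤ b) (hab : a + b = 1) :
    sumMap πK πL t (a • x + b • x') = sumMap πK πL t x := by
  have h1 := sumMap_mono hK hL ht x x'
  rw [hx, sub_self, inner_zero_left] at h1
  have h2 : ‖πK x - πK x'‖ ^ 2 = 0 := by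
    have := sq_nonneg ‖πK x - πK x'‖
    have := mul_nonneg ht (sq_nonneg ‖πL x - πL x'‖)
    linarith
  have h3 : πK x = πK x' := by
    have := pow_eq_zero_iff (two_ne_zero) |>.mp h2
    exact sub_eq_zero.mp (norm_eq_zero.mp this)
  simp only [sumMap]
  rw [hK.fiber h3 ha hb hab]
  by_cases ht0 : t = 0
  · subst ht0; simp
  · have htpos : 0 < t := lt_of_le_of_ne ht (Ne.symm ht0)
    have h4 : ‖πL x - πL x'‖ ^ 2 = 0 := by
      have h5 := sq_nonneg ‖πL x - πL x'‖
      rw [h2] at h1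
      have : t * ‖πL x - πL x'‖ ^ 2 ≤ 0 := by linarith
      have := nonpos_of_mul_nonpos_right this htpos
      linarith
    have h5 : πL x = πL x' := by
      have := pow_eq_zero_iff (two_ne_zero) |>.mp h4
      exact sub_eq_zero.mp (norm_eq_zero.mp this)
    rw [hL.fiber h5 ha hb hab]

omit [FiniteDimensional ℝ E] in
theorem sumMap_fderiv_zero {K L : Set E} {πK πL : E → E} (hK : IsProj K πK) (hL : IsProj L πL)
    {t : ℝ} (ht : 0 ≤ t) {x x' : E} (hx : sumMap πK πL t x = sumMap πK πL t x')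
    (hd : DifferentiableAt ℝ (sumMap πK πL t) x) :
    fderiv ℝ (sumMap πK πL t) x (x' - x) = 0 := by
  set F := sumMap πK πL t with hF
  have hline : HasDerivAt (fun s : ℝ => F (x + s • (x' - x))) (fderiv ℝ F x (x' - x)) 0 := by
    have h1 : HasDerivAt (fun s : ℝ => x + s • (x' - x)) (x' - x) 0 := by
      simpa using ((hasDerivAt_id (0:ℝ)).smul_const (x' - x)).const_add x
    have h2 : HasFDerivAt F (fderiv ℝ F x) (x + (0:ℝ) • (x' - x)) := by
      simpa using hd.hasFDerivAt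
    exact h2.comp_hasDerivAt (0:ℝ) h1
  have hconst : ∀ s ∈ Icc (0:ℝ) 1, F (x + s • (x' - x)) = F x := by
    intro s hs
    have h1 : F ((1 - s) • x + s • x') = F x :=
      sumMap_fiber hK hL ht hx (a := 1 - s) (b := s) (by linarith [hs.2]) hs.1 (by ring)
    rw [← h1]
    congr 1
    module
  have hw1 : HasDerivWithinAt (fun s : ℝ => F (x + s • (x' - x))) (fderiv ℝ F x (x' - x))
      (Icc 0 1) 0 := hline.hasDerivWithinAt
  have hw2 : HasDerivWithinAt (fun s : ℝ => F (x + s • (x' - x))) 0 (Icc 0 1) 0 := by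
    apply (hasDerivWithinAt_const (0:ℝ) (Icc (0:ℝ) 1) (F x)).congr
    · intro s hs; exact hconst s hs
    · simp
  have hu : UniqueDiffWithinAt ℝ (Icc (0:ℝ) 1) 0 :=
    uniqueDiffOn_Icc (zero_lt_one) 0 (by simp)
  exact hu.eq_deriv _ hw1 hw2

/-- the potential of the metric projection -/
noncomputable def pot (π : E → E) (x : E) : ℝ := ⟪x, π x⟫ - ‖π x‖ ^ 2 / 2

omit [FiniteDimensional ℝ E] in
theorem pot_ge {K : Set E} {π : E → E} (h : IsProj K π) (x : E) {a : E} (ha : a ∈ K) :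
    ⟪x, a⟫ - ‖a‖ ^ 2 / 2 ≤ pot π x := by
  have h1 := h.2 x a ha
  have h2 : ⟪x - π x, a - π x⟫ = ⟪x, a⟫ - ⟪x, π x⟫ - ⟪π x, a⟫ + ‖π x‖ ^ 2 := by
    rw [← real_inner_self_eq_norm_sq]
    simp only [inner_sub_left, inner_sub_right]; ring
  have h3 : ‖π x - a‖ ^ 2 = ‖π x‖ ^ 2 - 2 * ⟪π x, a⟫ + ‖a‖ ^ 2 := norm_sub_sq_real _ _
  have h4 := sq_nonneg ‖π x - a‖
  simp only [pot]
  linarith

omit [FiniteDimensional ℝ E] in
theorem pot_diff {K : Set E} {π : E → E} (h : IsProj K π) (x v : E) :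
    pot π (x + v) - pot π x ≤ ⟪v, π (x + v)⟫ := by
  have h1 := pot_ge h x (h.1 (x + v))
  have h2 : pot π (x + v) = ⟪x, π (x + v)⟫ + ⟪v, π (x + v)⟫ - ‖π (x + v)‖ ^ 2 / 2 := by
    simp only [pot, inner_add_left]
  linarith

/-- Surjectivity of the sum map onto the interior of `K + t L`. -/
theorem sumMap_surj {K L : Set E} {πK πL : E → E} (hK : IsProj K πK) (hL : IsProj L πL)
    (hKc : IsCompact K) (hLc : IsCompact L)
    {t : ℝ} (ht : 0 ≤ t) {y : E} (hy : y ∈ interior (K + t • L)) :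
    ∃ x, sumMap πK πL t x = y := by
  have hcK : Continuous πK := (LipschitzWith.of_dist_le_mul (K := 1) (by
    intro x y; rw [dist_eq_norm, dist_eq_norm]; simpa using hK.dist_le x y)).continuous
  have hcL : Continuous πL := (LipschitzWith.of_dist_le_mul (K := 1) (by
    intro x y; rw [dist_eq_norm, dist_eq_norm]; simpa using hL.dist_le x y)).continuous
  let w : E → ℝ := fun x => pot πK x + t * pot πL x - ⟪x, y⟫
  have hwc : Continuous w := by
    simp only [w, pot]
    fun_prop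
  obtain ⟨ε, hε, hball⟩ := Metric.isOpen_iff.mp isOpen_interior y hy
  obtain ⟨CK, hCK⟩ := hKc.isBounded.exists_norm_le
  obtain ⟨CL, hCL⟩ := hLc.isBounded.exists_norm_le
  have hcoer : ∀ x, ε / 2 * ‖x‖ - (CK ^ 2 / 2 + t * (CL ^ 2 / 2)) ≤ w x := by
    intro x
    have hmem : y + (ε / 2) • ((‖x‖)⁻¹ • x) ∈ K + t • L := by
      apply interior_subset
      apply hball
      rw [Metric.mem_ball, dist_eq_norm, add_sub_cancel_left, norm_smul, norm_smul, norm_inv,
        norm_norm, Real.norm_of_nonneg (by positivity)]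
      by_cases h0 : ‖x‖ = 0
      · rw [h0]; simp [hε]
      · rw [inv_mul_cancel₀ h0]; linarith
    obtain ⟨a, ha, tb, ⟨b, hb, rfl⟩, hab⟩ := hmem
    have h1 := pot_ge hK x ha
    have h2 := pot_ge hL x hb
    have h3 : ⟪x, a⟫ + t * ⟪x, b⟫ = ⟪x, y⟫ + ε / 2 * ‖x‖ := by
      have h4 : ⟪x, a + t • b⟫ = ⟪x, y + (ε / 2) • ((‖x‖)⁻¹ • x)⟫ := by
        rw [← hab]
      rw [inner_add_right, real_inner_smul_right, inner_add_right, real_inner_smul_right,
        real_inner_smul_right, real_inner_self_eq_norm_sq] at h4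
      rw [h4]
      by_cases h0 : ‖x‖ = 0
      · rw [h0]; simp
      · congr 1
        field_simp
    have h5 : ‖a‖ ^ 2 ≤ CK ^ 2 := by
      have := hCK a ha
      have := norm_nonneg a
      gcongr
    have h6 : ‖b‖ ^ 2 ≤ CL ^ 2 := by
      have := hCL b hb
      have := norm_nonneg b
      gcongr
    simp only [w]
    have h7 : t * (⟪x, b⟫ - ‖b‖ ^ 2 / 2) ≤ t * pot πL x := mul_le_mul_of_nonneg_left h2 ht
    have h8 : t * (‖b‖ ^ 2 / 2) ≤ t * (CL ^ 2 / 2) := by gcongr
    nlinarith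
  have htend : Filter.Tendsto w (Filter.cocompact E) Filter.atTop := by
    apply Filter.tendsto_atTop_mono hcoer
    apply Filter.tendsto_atTop_add_const_right
    exact tendsto_norm_cocompact_atTop.const_mul_atTop (by positivity)
  obtain ⟨x, hx⟩ := hwc.exists_forall_le htend
  refine ⟨x, ?_⟩
  have hmin : ∀ v, 0 ≤ ⟪v, sumMap πK πL t (x + v) - y⟫ := by
    intro v
    have h1 := hx (x + v)
    have h2 := pot_diff hK x v
    have h3 := pot_diff hL x v
    simp only [w] at h1
    rw [inner_add_left] at h1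
    have h4 : ⟪v, sumMap πK πL t (x + v) - y⟫ =
        ⟪v, πK (x + v)⟫ + t * ⟪v, πL (x + v)⟫ - ⟪v, y⟫ := by
      simp only [sumMap, inner_sub_right, inner_add_right, real_inner_smul_right]
    rw [h4]
    nlinarith
  -- let v = - s (F x - y), s → 0
  set g := sumMap πK πL t x - y with hg
  have hlim : Filter.Tendsto (fun s : ℝ => ⟪g, sumMap πK πL t (x + (-s) • g) - y⟫) (𝓝[>] 0)
      (𝓝 ⟪g, g⟫) := by
    have hcF : Continuous (sumMap πK πL t) := (sumMap_lipschitz hK hL ht).continuous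
    have hc : Continuous (fun s : ℝ => ⟪g, sumMap πK πL t (x + (-s) • g) - y⟫) := by
      fun_prop
    have := hc.tendsto 0
    simp only [neg_zero, zero_smul, add_zero] at this
    exact this.mono_left nhdsWithin_le_nhds
  have hle : ⟪g, g⟫ ≤ 0 := by
    apply le_of_tendsto hlim
    filter_upwards [self_mem_nhdsWithin] with s hs
    have h1 := hmin ((-s) • g)
    rw [real_inner_smul_left] at h1
    have hs' : 0 < s := hs
    nlinarith
  have h0 : g = 0 := by
    rw [real_inner_self_eq_norm_sq] at hle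
    have := sq_nonneg ‖g‖
    have : ‖g‖ ^ 2 = 0 := le_antisymm hle this
    exact norm_eq_zero.mp (pow_eq_zero_iff two_ne_zero |>.mp this)
  exact sub_eq_zero.mp h0

end Pool.Agent.Lib.MP_87489e_co
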