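import Mathlib
import Pool.Agent.Lib.MP_87489e_co.Proj

set_option autoImplicit false

namespace Pool.Agent.Lib.MP_87489e_co

open MeasureTheory Set Pointwise
open scoped RealInnerProductSpace Topology

variable {E : Type*} [NormedAddCommGroup E] [InnerProductSpace ℝ E] [FiniteDimensional ℝ E]
  [MeasurableSpace E] [BorelSpace E] (μ : Measure E) [μ.IsAddHaarMeasure]

theorem lipschitz_null {F : E → E} {C : NNReal} (hF : LipschitzWith C F) {s : Set E}
    (hs : μ s = 0) : μ (F '' s) = 0 := by
  have hac1 := Measure.absolutelyContinuous_isAddHaarMeasure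
    (Measure.hausdorffMeasure (Module.finrank ℝ E : ℝ) : Measure E) μ
  have hac2 := Measure.absolutelyContinuous_isAddHaarMeasure μ
    (Measure.hausdorffMeasure (Module.finrank ℝ E : ℝ) : Measure E)
  have h1 : (Measure.hausdorffMeasure (Module.finrank ℝ E : ℝ) : Measure E) s = 0 := hac1 hs
  have h2 := hF.hausdorffMeasure_image_le (d := (Module.finrank ℝ E : ℝ)) (by positivity) s
  rw [h1, mul_zero, nonpos_iff_eq_zero] at h2
  exact hac2 h2

/-- Volume formula. -/
theorem volume_formula [Nontrivial E] {K L : Set E} {πK πL : E → E} (hK : IsProj K πK)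
    (hL : IsProj L πL) (hKc : IsCompact K) (hLc : IsCompact L) (hKx : Convex ℝ K)
    (hLx : Convex ℝ L) {t : ℝ} (ht : 0 ≤ t) :
    μ (K + t • L) = ∫⁻ x, ENNReal.ofReal |(fderiv ℝ (sumMap πK πL t) x).det| ∂μ := by
  set F := sumMap πK πL t with hF
  have hLip : LipschitzWith (Real.toNNReal (1 + t)) F := sumMap_lipschitz hK hL ht
  set D : Set E := {x | DifferentiableAt ℝ F x} with hD
  have hDm : MeasurableSet D := measurableSet_of_differentiableAt ℝ F
  have hdetm : Measurable (fun x => (fderiv ℝ F x).det) :=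
    ContinuousLinearMap.continuous_det.measurable.comp (measurable_fderiv ℝ F)
  set S : Set E := D ∩ {x | (fderiv ℝ F x).det ≠ 0} with hS
  have hSm : MeasurableSet S := hDm.inter (hdetm (measurableSet_singleton (0:ℝ)).compl)
  -- images
  have hDc : μ Dᶜ = 0 := by
    have := hLip.ae_differentiableAt (μ := μ)
    exact this
  have hN1 : μ (F '' Dᶜ) = 0 := lipschitz_null μ hLip hDc
  have hN2 : μ (F '' (D \ S)) = 0 := by
    apply addHaar_image_eq_zero_of_det_fderivWithin_eq_zero μ (f' := fun x => fderiv ℝ F x)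
    · intro x hx
      exact (DifferentiableAt.hasFDerivAt hx.1).hasFDerivWithinAt
    · intro x hx
      by_contra h
      exact hx.2 ⟨hx.1, h⟩
  have hinj : InjOn F S := by
    intro x hx x' hx' hxx
    by_contra hne
    have h0 := sumMap_fderiv_zero hK hL ht hxx hx.1
    have hdet : (fderiv ℝ F x).det ≠ 0 := hx.2
    have hker : LinearMap.ker (fderiv ℝ F x : E →ₗ[ℝ] E) = ⊥ := by
      by_contra hk
      apply hdet
      exact LinearMap.det_eq_zero_iff_ker_ne_bot.mpr hk
    have hmem : (x' - x) ∈ LinearMap.ker (fderiv ℝ F x : E →ₗ[ℝ] E) := by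
      rw [LinearMap.mem_ker]; exact h0
    rw [hker, Submodule.mem_bot, sub_eq_zero] at hmem
    exact hne hmem.symm
  have hS_eq : ∫⁻ x in S, ENNReal.ofReal |(fderiv ℝ F x).det| ∂μ = μ (F '' S) := by
    apply lintegral_abs_det_fderiv_eq_addHaar_image μ hSm _ hinj
    intro x hx
    exact (DifferentiableAt.hasFDerivAt hx.1).hasFDerivWithinAt
  have hall : ∫⁻ x, ENNReal.ofReal |(fderiv ℝ F x).det| ∂μ =
      ∫⁻ x in S, ENNReal.ofReal |(fderiv ℝ F x).det| ∂μ := by
    rw [← lintegral_indicator hSm]
    apply lintegral_congr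
    intro x
    by_cases hx : x ∈ S
    · rw [indicator_of_mem hx]
    · rw [indicator_of_notMem hx]
      by_cases hd : x ∈ D
      · have : (fderiv ℝ F x).det = 0 := by
          by_contra h; exact hx ⟨hd, h⟩
        rw [this]; simp
      · have : fderiv ℝ F x = 0 := fderiv_zero_of_not_differentiableAt hd
        rw [this]
        have : (0 : E →L[ℝ] E).det = 0 := by
          have h1 : (0 : E →L[ℝ] E).det = LinearMap.det (0 : E →ₗ[ℝ] E) := rfl
          rw [h1]
          rw [LinearMap.det_zero]
          exact zero_pow (Module.finrank_pos (R := ℝ) (M := E)).ne'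
        rw [this]; simp
  have hrange : range F ⊆ K + t • L := by
    rintro _ ⟨x, rfl⟩
    exact ⟨πK x, hK.1 x, t • πL x, ⟨πL x, hL.1 x, rfl⟩, rfl⟩
  have hint : interior (K + t • L) ⊆ range F := by
    intro y hy
    obtain ⟨x, hx⟩ := sumMap_surj hK hL hKc hLc ht hy
    exact ⟨x, hx⟩
  have hconv : Convex ℝ (K + t • L) := hKx.add (hLx.smul t)
  have hfr : μ (frontier (K + t • L)) = 0 := hconv.addHaar_frontier μ
  have hrS : μ (range F) = μ (F '' S) := by
    apply le_antisymm
    · have : range F ⊆ F '' S ∪ (F '' (D \ S) ∪ F '' Dᶜ) := by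
        rintro _ ⟨x, rfl⟩
        by_cases hd : x ∈ D
        · by_cases hs : x ∈ S
          · exact Or.inl ⟨x, hs, rfl⟩
          · exact Or.inr (Or.inl ⟨x, ⟨hd, hs⟩, rfl⟩)
        · exact Or.inr (Or.inr ⟨x, hd, rfl⟩)
      calc μ (range F) ≤ μ (F '' S ∪ (F '' (D \ S) ∪ F '' Dᶜ)) := measure_mono this
        _ ≤ μ (F '' S) + μ (F '' (D \ S) ∪ F '' Dᶜ) := measure_union_le _ _
        _ ≤ μ (F '' S) + (μ (F '' (D \ S)) + μ (F '' Dᶜ)) := by
            gcongr; exact measure_union_le _ _
        _ = μ (F '' S) := by rw [hN1, hN2]; simp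
    · exact measure_mono (image_subset_range F S)
  have hKL : μ (K + t • L) = μ (range F) := by
    apply le_antisymm
    · have : K + t • L ⊆ interior (K + t • L) ∪ frontier (K + t • L) := by
        rw [← closure_eq_interior_union_frontier]
        exact subset_closure
      calc μ (K + t • L) ≤ μ (interior (K + t • L) ∪ frontier (K + t • L)) := measure_mono this
        _ ≤ μ (interior (K + t • L)) + μ (frontier (K + t • L)) := measure_union_le _ _
        _ = μ (interior (K + t • L)) := by rw [hfr, add_zero]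
        _ ≤ μ (range F) := measure_mono hint
    · exact measure_mono hrange
  rw [hKL, hrS, hall, hS_eq]

end Pool.Agent.Lib.MP_87489e_co
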