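import Mathlib
import Pool.Agent.Lib.MP_87489e_co.VolFormula

set_option autoImplicit false

namespace Pool.Agent.Lib.MP_87489e_co

open MeasureTheory Set Pointwise
open scoped RealInnerProductSpace Topology

section
variable {E : Type*} [NormedAddCommGroup E] [InnerProductSpace ℝ E] [FiniteDimensional ℝ E]

/-- A monotone linear map has nonnegative determinant. -/
theorem det_nonneg_of_mono (M : E →L[ℝ] E) (h : ∀ v, 0 ≤ ⟪M v, v⟫) : 0 ≤ M.det := by
  by_contra hneg
  push Not at hneg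
  let f : ℝ → ℝ := fun s => ((1 - s) • M + s • ContinuousLinearMap.id ℝ E).det
  have hf : Continuous f := by
    apply ContinuousLinearMap.continuous_det.comp
    fun_prop
  have hf0 : f 0 = M.det := by simp [f]
  have hf1 : f 1 = 1 := by
    simp only [f, sub_self, zero_smul, one_smul, zero_add]
    exact LinearMap.det_id
  obtain ⟨s, hs, hs0⟩ : (0:ℝ) ∈ f '' Icc 0 1 := by
    apply intermediate_value_Icc zero_le_one hf.continuousOn
    rw [hf0, hf1]
    exact ⟨hneg.le, zero_le_one⟩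
  have hspos : 0 < s := by
    rcases hs.1.lt_or_eq with h' | h'
    · exact h'
    · exfalso
      rw [← h', hf0] at hs0
      linarith
  have hker : LinearMap.ker (((1 - s) • M + s • ContinuousLinearMap.id ℝ E : E →L[ℝ] E) : E →ₗ[ℝ] E) ≠ ⊥ :=
    LinearMap.det_eq_zero_iff_ker_ne_bot.mp hs0
  apply hker
  rw [LinearMap.ker_eq_bot']
  intro v hv
  have h1 : ⟪((1 - s) • M + s • ContinuousLinearMap.id ℝ E) v, v⟫ = 0 := by
    have : ((1 - s) • M + s • ContinuousLinearMap.id ℝ E) v = 0 := hv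
    rw [this, inner_zero_left]
  simp only [add_apply, smul_apply,
    ContinuousLinearMap.id_apply, inner_add_left, real_inner_smul_left,
    real_inner_self_eq_norm_sq] at h1
  have h2 := h v
  have h3 : 0 ≤ (1 - s) * ⟪M v, v⟫ := mul_nonneg (by linarith [hs.2]) h2
  have h4 : s * ‖v‖ ^ 2 ≤ 0 := by linarith
  have h5 : ‖v‖ ^ 2 ≤ 0 := by
    by_contra h6
    push Not at h6
    have := mul_pos hspos h6
    linarith
  have h6 : ‖v‖ ^ 2 = 0 := le_antisymm h5 (sq_nonneg _)
  exact norm_eq_zero.mp (pow_eq_zero_iff two_ne_zero |>.mp h6)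

omit [FiniteDimensional ℝ E] in
/-- The derivative of a monotone map is monotone. -/
theorem fderiv_mono {F : E → E} (hmono : ∀ x y, 0 ≤ ⟪F x - F y, x - y⟫) {x : E}
    (hd : DifferentiableAt ℝ F x) (v : E) : 0 ≤ ⟪fderiv ℝ F x v, v⟫ := by
  have hline : HasDerivAt (fun s : ℝ => F (x + s • v)) (fderiv ℝ F x v) 0 := by
    have h1 : HasDerivAt (fun s : ℝ => x + s • v) v 0 := by
      simpa using ((hasDerivAt_id (0:ℝ)).smul_const v).const_add x
    have h2 : HasFDerivAt F (fderiv ℝ F x) (x + (0:ℝ) • v) := by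
      simpa using hd.hasFDerivAt
    exact h2.comp_hasDerivAt (0:ℝ) h1
  have hlim := hline.tendsto_slope_zero
  have hlim2 : Filter.Tendsto (fun t : ℝ => ⟪t⁻¹ • (F (x + (0 + t) • v) - F (x + (0:ℝ) • v)), v⟫) (𝓝[≠] 0)
      (𝓝 ⟪fderiv ℝ F x v, v⟫) := hlim.inner tendsto_const_nhds
  apply ge_of_tendsto hlim2
  filter_upwards [self_mem_nhdsWithin] with t ht
  have ht' : t ≠ 0 := ht
  have h1 := hmono (x + (0 + t) • v) (x + (0:ℝ) • v)
  have h2 : x + (0 + t) • v - (x + (0:ℝ) • v) = t • v := by module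
  rw [h2, real_inner_smul_right] at h1
  rw [real_inner_smul_left]
  have h3 : t⁻¹ * ⟪F (x + (0 + t) • v) - F (x + (0:ℝ) • v), v⟫ =
      (t⁻¹) ^ 2 * (t * ⟪F (x + (0 + t) • v) - F (x + (0:ℝ) • v), v⟫) := by
    field_simp
  rw [h3]
  positivity

end

/-- three-dimensional Euclidean space -/
abbrev E3 := EuclideanSpace ℝ (Fin 3)

/-- Lagrange interpolation of the determinant of a pencil at `0, 1, 2, 3`. -/
theorem det_interp (A B : E3 →L[ℝ] E3) (t : ℝ) :
    (A + t • B).det = (t - 1) * (t - 2) * (t - 3) / (-6) * A.det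
      + t * (t - 2) * (t - 3) / 2 * (A + (1:ℝ) • B).det
      + t * (t - 1) * (t - 3) / (-2) * (A + (2:ℝ) • B).det
      + t * (t - 1) * (t - 2) / 6 * (A + (3:ℝ) • B).det := by
  let b := (EuclideanSpace.basisFun (Fin 3) ℝ).toBasis
  have key : ∀ M : E3 →L[ℝ] E3, M.det = (LinearMap.toMatrix b b (M : E3 →ₗ[ℝ] E3)).det := by
    intro M
    rw [LinearMap.det_toMatrix]
  have hlin : ∀ s : ℝ, LinearMap.toMatrix b b ((A + s • B : E3 →L[ℝ] E3) : E3 →ₗ[ℝ] E3) =
      LinearMap.toMatrix b b (A : E3 →ₗ[ℝ] E3) + s • LinearMap.toMatrix b b (B : E3 →ₗ[ℝ] E3) := by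
    intro s
    rw [← map_smul, ← map_add]
    rfl
  rw [key, key, key, key, key, hlin, hlin, hlin, hlin]
  generalize LinearMap.toMatrix b b (A : E3 →ₗ[ℝ] E3) = P
  generalize LinearMap.toMatrix b b (B : E3 →ₗ[ℝ] E3) = Q
  simp only [Matrix.det_fin_three, Matrix.add_apply, Matrix.smul_apply, smul_eq_mul]
  ring

/-- the volume of `K + t L` in three-space -/
noncomputable def V3 (K L : Set E3) (t : ℝ) : ℝ := (volume (K + t • L)).toReal

theorem V3_interp {K L : Set E3} (hKc : IsCompact K) (hLc : IsCompact L) (hKx : Convex ℝ K)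
    (hLx : Convex ℝ L) (hKn : K.Nonempty) (hLn : L.Nonempty) {t : ℝ} (ht : 0 ≤ t) :
    V3 K L t = (t - 1) * (t - 2) * (t - 3) / (-6) * V3 K L 0
      + t * (t - 2) * (t - 3) / 2 * V3 K L 1
      + t * (t - 1) * (t - 3) / (-2) * V3 K L 2
      + t * (t - 1) * (t - 2) / 6 * V3 K L 3 := by
  obtain ⟨πK, hK⟩ := exists_isProj hKc hKx hKn
  obtain ⟨πL, hL⟩ := exists_isProj hLc hLx hLn
  have hlipK : LipschitzWith 1 πK := LipschitzWith.of_dist_le_mul (by
    intro x y; rw [dist_eq_norm, dist_eq_norm]; simpa using hK.dist_le x y)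
  have hlipL : LipschitzWith 1 πL := LipschitzWith.of_dist_le_mul (by
    intro x y; rw [dist_eq_norm, dist_eq_norm]; simpa using hL.dist_le x y)
  have haeK := hlipK.ae_differentiableAt (μ := (volume : Measure E3))
  have haeL := hlipL.ae_differentiableAt (μ := (volume : Measure E3))
  -- the integrand
  let g : ℝ → E3 → ℝ := fun s x => (fderiv ℝ (sumMap πK πL s) x).det
  have hfd : ∀ s : ℝ, ∀ᵐ x ∂(volume : Measure E3),
      fderiv ℝ (sumMap πK πL s) x = fderiv ℝ πK x + s • fderiv ℝ πL x := by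
    intro s
    filter_upwards [haeK, haeL] with x h1 h2
    have : sumMap πK πL s = πK + s • πL := by
      funext y; rfl
    rw [this, fderiv_add h1 (h2.const_smul s), fderiv_const_smul h2]
  have hpos : ∀ s : ℝ, 0 ≤ s → ∀ᵐ x ∂(volume : Measure E3), 0 ≤ g s x := by
    intro s hs
    filter_upwards [haeK, haeL] with x h1 h2
    have hd : DifferentiableAt ℝ (sumMap πK πL s) x := by
      have : sumMap πK πL s = πK + s • πL := by
        funext y; rfl
      rw [this]
      exact h1.add (h2.const_smul s)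
    apply det_nonneg_of_mono
    apply fderiv_mono _ hd
    intro y z
    have h3 := sumMap_mono hK hL hs y z
    have h4 := sq_nonneg ‖πK y - πK z‖
    have h5 := mul_nonneg hs (sq_nonneg ‖πL y - πL z‖)
    linarith
  have hmeas : ∀ s : ℝ, Measurable (g s) := fun s =>
    ContinuousLinearMap.continuous_det.measurable.comp (measurable_fderiv ℝ _)
  have hvol : ∀ s : ℝ, 0 ≤ s → volume (K + s • L) = ∫⁻ x, ENNReal.ofReal |g s x| := fun s hs =>
    volume_formula volume hK hL hKc hLc hKx hLx hs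
  have hint : ∀ s : ℝ, 0 ≤ s → Integrable (g s) volume := by
    intro s hs
    refine ⟨(hmeas s).aestronglyMeasurable, ?_⟩
    have : ∫⁻ x, ‖g s x‖ₑ = volume (K + s • L) := by
      rw [hvol s hs]
      apply lintegral_congr
      intro x
      rw [← ofReal_norm, Real.norm_eq_abs]
    rw [HasFiniteIntegral, this]
    exact (hKc.add (hLc.smul s)).measure_lt_top
  have hV : ∀ s : ℝ, 0 ≤ s → V3 K L s = ∫ x, g s x := by
    intro s hs
    rw [V3, hvol s hs, integral_eq_lintegral_of_nonneg_ae (hpos s hs)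
      (hmeas s).aestronglyMeasurable]
    congr 1
    apply lintegral_congr_ae
    filter_upwards [hpos s hs] with x hx
    rw [abs_of_nonneg hx]
  have hae : ∀ᵐ x ∂(volume : Measure E3), g t x =
      (t - 1) * (t - 2) * (t - 3) / (-6) * g 0 x
      + t * (t - 2) * (t - 3) / 2 * g 1 x
      + t * (t - 1) * (t - 3) / (-2) * g 2 x
      + t * (t - 1) * (t - 2) / 6 * g 3 x := by
    filter_upwards [hfd t, hfd 0, hfd 1, hfd 2, hfd 3] with x h h0 h1 h2 h3
    simp only [g]
    have e0 : fderiv ℝ πK x + (0:ℝ) • fderiv ℝ πL x = fderiv ℝ πK x := by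
      have e1 : (0:ℝ) • fderiv ℝ πL x = 0 := by
        apply ContinuousLinearMap.ext
        intro v
        simp
      rw [e1, add_zero]
    rw [h, h0, h1, h2, h3, det_interp, e0]
  rw [hV t ht, hV 0 le_rfl, hV 1 zero_le_one, hV 2 zero_le_two, hV 3 (by norm_num),
    integral_congr_ae hae]
  have i0 := (hint 0 le_rfl).const_mul ((t - 1) * (t - 2) * (t - 3) / (-6))
  have i1 := (hint 1 zero_le_one).const_mul (t * (t - 2) * (t - 3) / 2)
  have i2 := (hint 2 zero_le_two).const_mul (t * (t - 1) * (t - 3) / (-2))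
  have i3 := (hint 3 (by norm_num)).const_mul (t * (t - 1) * (t - 2) / 6)
  have i01 : Integrable (fun x => (t - 1) * (t - 2) * (t - 3) / (-6) * g 0 x +
      t * (t - 2) * (t - 3) / 2 * g 1 x) volume := i0.add i1
  have i012 : Integrable (fun x => (t - 1) * (t - 2) * (t - 3) / (-6) * g 0 x +
      t * (t - 2) * (t - 3) / 2 * g 1 x + t * (t - 1) * (t - 3) / (-2) * g 2 x) volume := i01.add i2
  rw [integral_add i012 i3, integral_add i01 i2, integral_add i0 i1]
  simp only [integral_const_mul]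

/-- `V (K + t L)` is a cubic polynomial in `t ≥ 0`. -/
theorem V3_poly {K L : Set E3} (hKc : IsCompact K) (hLc : IsCompact L) (hKx : Convex ℝ K)
    (hLx : Convex ℝ L) (hKn : K.Nonempty) (hLn : L.Nonempty) :
    ∃ a0 a1 a2 a3 : ℝ, ∀ t : ℝ, 0 ≤ t → V3 K L t = a0 + a1 * t + a2 * t ^ 2 + a3 * t ^ 3 := by
  have h := fun (t : ℝ) (ht : 0 ≤ t) => V3_interp hKc hLc hKx hLx hKn hLn ht
  generalize V3 K L 0 = v0 at h
  generalize V3 K L 1 = v1 at h
  generalize V3 K L 2 = v2 at h
  generalize V3 K L 3 = v3 at h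
  refine ⟨v0, -11 / 6 * v0 + 3 * v1 - 3 / 2 * v2 + v3 / 3, v0 - 5 / 2 * v1 + 2 * v2 - v3 / 2,
    -v0 / 6 + v1 / 2 - v2 / 2 + v3 / 6, ?_⟩
  intro t ht
  rw [h t ht]
  ring

end Pool.Agent.Lib.MP_87489e_co
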