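import Mathlib
import Pool.Agent.Lib.MP_87489e_co.Poly
import Pool.Agent.Lib.MP_87489e_co.Coord

set_option autoImplicit false

namespace Pool.Agent.Lib.MP_87489e_co

open MeasureTheory Set Pointwise
open scoped RealInnerProductSpace Topology

/-- the volume of `K + t L` in coordinate three-space -/
noncomputable def W3 (K L : Set (Fin 3 → ℝ)) (t : ℝ) : ℝ := (volume (K + t • L)).toReal

theorem toLp_volume {S : Set (Fin 3 → ℝ)} (hS : MeasurableSet S) :
    volume ((EuclideanSpace.equiv (Fin 3) ℝ).symm '' S) = volume S := by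
  have h := (PiLp.volume_preserving_ofLp (Fin 3)).measure_preimage hS.nullMeasurableSet
  rw [← h]
  congr 1
  ext x
  simp only [mem_image, mem_preimage]
  constructor
  · rintro ⟨y, hy, rfl⟩
    exact hy
  · intro hx
    exact ⟨_, hx, rfl⟩

theorem W3_eq {K L : Set (Fin 3 → ℝ)} (hKc : IsCompact K) (hLc : IsCompact L) (t : ℝ) :
    W3 K L t = V3 ((EuclideanSpace.equiv (Fin 3) ℝ).symm '' K)
      ((EuclideanSpace.equiv (Fin 3) ℝ).symm '' L) t := by
  rw [W3, V3, ← toLp_volume (hKc.add (hLc.smul t)).measurableSet]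
  congr 2
  have h1 : (EuclideanSpace.equiv (Fin 3) ℝ).symm '' (t • L) =
      t • ((EuclideanSpace.equiv (Fin 3) ℝ).symm '' L) := by
    ext x
    simp only [mem_image, mem_smul_set, exists_exists_and_eq_and, map_smul]
  rw [← h1]
  exact image_add (EuclideanSpace.equiv (Fin 3) ℝ).symm

theorem W3_poly {K L : Set (Fin 3 → ℝ)} (hKc : IsCompact K) (hLc : IsCompact L) (hKx : Convex ℝ K)
    (hLx : Convex ℝ L) (hKn : K.Nonempty) (hLn : L.Nonempty) :
    ∃ a0 a1 a2 a3 : ℝ, ∀ t : ℝ, 0 ≤ t → W3 K L t = a0 + a1 * t + a2 * t ^ 2 + a3 * t ^ 3 := by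
  obtain ⟨a0, a1, a2, a3, h⟩ := V3_poly
    (hKc.image (EuclideanSpace.equiv (Fin 3) ℝ).symm.continuous)
    (hLc.image (EuclideanSpace.equiv (Fin 3) ℝ).symm.continuous)
    (hKx.linear_image ((EuclideanSpace.equiv (Fin 3) ℝ).symm.toLinearEquiv : (Fin 3 → ℝ) →ₗ[ℝ] E3))
    (hLx.linear_image ((EuclideanSpace.equiv (Fin 3) ℝ).symm.toLinearEquiv : (Fin 3 → ℝ) →ₗ[ℝ] E3))
    (hKn.image _) (hLn.image _)
  refine ⟨a0, a1, a2, a3, fun t ht => ?_⟩
  rw [W3_eq hKc hLc, ← h t ht]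

/-- The polynomial `V (K - t K)` is palindromic. -/
theorem W3_sym {K : Set (Fin 3 → ℝ)} (hKc : IsCompact K) (hKx : Convex ℝ K) (hKn : K.Nonempty) :
    ∃ a1 : ℝ, ∀ t : ℝ, 0 ≤ t → W3 K (-K) t = (volume K).toReal + a1 * t + a1 * t ^ 2 +
      (volume K).toReal * t ^ 3 := by
  obtain ⟨a0, a1, a2, a3, h⟩ := W3_poly hKc hKc.neg hKx hKx.neg hKn hKn.neg
  have hsym : ∀ t : ℝ, 0 < t → W3 K (-K) t = t ^ 3 * W3 K (-K) t⁻¹ := by
    intro t ht
    have hset : K + t • (-K) = (-t) • (K + t⁻¹ • (-K)) := by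
      rw [smul_add, smul_smul, neg_mul, mul_inv_cancel₀ ht.ne', Set.neg_smul_set, Set.neg_smul_set,
        one_smul, neg_neg, Set.smul_set_neg, add_comm]
    rw [W3, W3, hset, Measure.addHaar_smul]
    simp only [Module.finrank_fintype_fun_eq_card, Fintype.card_fin]
    rw [ENNReal.toReal_mul, ENNReal.toReal_ofReal (abs_nonneg _), abs_pow, abs_neg, abs_of_pos ht]
  have h0 : W3 K (-K) 0 = (volume K).toReal := by
    rw [W3, zero_smul_set hKn.neg, add_zero]
  have e0 := h 0 le_rfl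
  rw [h0] at e0
  have e2 := hsym 2 two_pos
  rw [h 2 two_pos.le, h _ (by norm_num)] at e2
  have e3 := hsym 3 three_pos
  rw [h 3 three_pos.le, h _ (by norm_num)] at e3
  have ha : a0 = a3 ∧ a1 = a2 := by
    constructor <;> linarith
  refine ⟨a1, fun t ht => ?_⟩
  rw [h t ht, ← ha.1, ← ha.2, e0]
  ring

end Pool.Agent.Lib.MP_87489e_co
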