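import Mathlib
import Pool.Agent.Lib.MP_87489e_co.Coord

set_option autoImplicit false

namespace Pool.Agent.Lib.MP_87489e_co

open MeasureTheory Set Pointwise

/-- The (possibly degenerate) cross-polytope with centre `c` and vertices `c + v i`, `c - v i`. -/
def crossPolytope {d : ℕ} (c : Fin d → ℝ) (v : Fin d → (Fin d → ℝ)) : Set (Fin d → ℝ) :=
  convexHull ℝ (range (fun i => c + v i) ∪ range (fun i => c - v i))

/-- the unit ball of the `ℓ^1` norm -/
def ball1 (d : ℕ) : Set (Fin d → ℝ) := {x | ∑ i, |x i| ≤ 1}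

theorem ball1_convex (d : ℕ) : Convex ℝ (ball1 d) := by
  intro x hx y hy a b ha hb hab
  simp only [ball1, mem_ofPred_eq] at hx hy ⊢
  calc ∑ i, |(a • x + b • y) i| ≤ ∑ i, (a * |x i| + b * |y i|) := by
        apply Finset.sum_le_sum
        intro i _
        simp only [Pi.add_apply, Pi.smul_apply, smul_eq_mul]
        calc |a * x i + b * y i| ≤ |a * x i| + |b * y i| := abs_add_le _ _
          _ = a * |x i| + b * |y i| := by rw [abs_mul, abs_mul, abs_of_nonneg ha, abs_of_nonneg hb]
    _ = a * ∑ i, |x i| + b * ∑ i, |y i| := by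
        rw [Finset.sum_add_distrib, Finset.mul_sum, Finset.mul_sum]
    _ ≤ a * 1 + b * 1 := by gcongr
    _ = 1 := by linarith

theorem ball1_volume {d : ℕ} (hd : 1 ≤ d) :
    volume (ball1 d) = ENNReal.ofReal (2 ^ d / d.factorial) := by
  have : Nonempty (Fin d) := ⟨⟨0, hd⟩⟩
  have h := MeasureTheory.volume_sum_rpow_le (ι := Fin d) (p := 1) le_rfl 1
  have h2 : {x : Fin d → ℝ | (∑ i, |x i| ^ (1:ℝ)) ^ (1 / (1:ℝ)) ≤ 1} = ball1 d := by
    ext x
    simp [ball1]
  rw [h2] at h
  rw [h]
  simp only [ENNReal.ofReal_one, one_pow, one_mul, Fintype.card_fin, div_one]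
  congr 1
  have h3 : Real.Gamma (1 + 1) = 1 := by
    rw [Real.Gamma_add_one one_ne_zero, Real.Gamma_one, mul_one]
  rw [h3, Real.Gamma_nat_eq_factorial, mul_one]

/-- the linear map sending the `i`-th unit vector to `v i` -/
noncomputable def vL {d : ℕ} (v : Fin d → (Fin d → ℝ)) : (Fin d → ℝ) →ₗ[ℝ] (Fin d → ℝ) :=
  Matrix.toLin' (Matrix.of v).transpose

theorem vL_apply {d : ℕ} (v : Fin d → (Fin d → ℝ)) (x : Fin d → ℝ) :
    vL v x = ∑ i, x i • v i := by
  ext j
  simp [vL, Matrix.mulVec, dotProduct, Finset.sum_apply, mul_comm]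

theorem vL_single {d : ℕ} (v : Fin d → (Fin d → ℝ)) (i : Fin d) (r : ℝ) :
    vL v (Pi.single i r) = r • v i := by
  rw [vL_apply, Finset.sum_eq_single i]
  · simp
  · intro j _ hj; simp [hj]
  · simp

theorem vL_det {d : ℕ} (v : Fin d → (Fin d → ℝ)) :
    LinearMap.det (vL v) = (Matrix.of v).det := by
  rw [vL, LinearMap.det_toLin', Matrix.det_transpose]

theorem crossPolytope_eq {d : ℕ} (hd : 1 ≤ d) (c : Fin d → ℝ) (v : Fin d → (Fin d → ℝ)) :
    crossPolytope c v = (fun x => c + x) '' (vL v '' ball1 d) := by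
  apply Subset.antisymm
  · apply convexHull_min
    · rintro _ (⟨i, rfl⟩ | ⟨i, rfl⟩)
      · refine ⟨v i, ⟨Pi.single i 1, ?_, by simp [vL_single]⟩, rfl⟩
        simp only [ball1, mem_ofPred_eq]
        rw [Finset.sum_eq_single i]
        · simp
        · intro j _ hj; simp [hj]
        · simp
      · refine ⟨- v i, ⟨Pi.single i (-1), ?_, by simp [vL_single]⟩, by
          simp [sub_eq_add_neg]⟩
        simp only [ball1, mem_ofPred_eq]
        rw [Finset.sum_eq_single i]
        · simp
        · intro j _ hj; simp [hj]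
        · simp
    · exact ((ball1_convex d).linear_image (vL v)).translate c
  · rintro _ ⟨_, ⟨x, hx, rfl⟩, rfl⟩
    simp only [ball1, mem_ofPred_eq] at hx
    set C := crossPolytope c v with hC
    have hconv : Convex ℝ C := convex_convexHull ℝ _
    have hp : ∀ i, c + v i ∈ C := fun i => subset_convexHull ℝ _ (Or.inl ⟨i, rfl⟩)
    have hm : ∀ i, c - v i ∈ C := fun i => subset_convexHull ℝ _ (Or.inr ⟨i, rfl⟩)
    have hc : c ∈ C := by
      have := hconv (hp ⟨0, hd⟩) (hm ⟨0, hd⟩) (by norm_num : (0:ℝ) ≤ 1/2) (by norm_num : (0:ℝ) ≤ 1/2)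
        (by norm_num)
      convert this using 1
      module
    have hs : ∀ i, c + (SignType.sign (x i) : ℝ) • v i ∈ C := by
      intro i
      rcases lt_trichotomy (x i) 0 with h | h | h
      · rw [sign_neg h]
        simpa [sub_eq_add_neg] using hm i
      · rw [h]; simpa using hc
      · rw [sign_pos h]; simpa using hp i
    -- convex combination over Option (Fin d)
    let w : Option (Fin d) → ℝ := fun o => o.elim (1 - ∑ i, |x i|) (fun i => |x i|)
    let z : Option (Fin d) → (Fin d → ℝ) := fun o => o.elim c (fun i => c + (SignType.sign (x i) : ℝ) • v i)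
    have hsum := hconv.sum_mem (t := Finset.univ) (w := w) (z := z) (by
      intro o _
      cases o with
      | none => simp only [w, Option.elim]; linarith
      | some i => simp only [w, Option.elim]; exact abs_nonneg _) (by
      rw [Fintype.sum_option]
      simp [w]) (by
      intro o _
      cases o with
      | none => exact hc
      | some i => exact hs i)
    rw [Fintype.sum_option] at hsum
    convert hsum using 1
    simp only [w, z, Option.elim]
    rw [vL_apply]
    have : ∀ i, |x i| • (c + (SignType.sign (x i) : ℝ) • v i) = |x i| • c + x i • v i := by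
      intro i
      rw [smul_add, smul_smul, mul_comm, sign_mul_abs]
    simp only [this, Finset.sum_add_distrib, ← Finset.sum_smul]
    module

theorem crossPolytope_volume {d : ℕ} (hd : 1 ≤ d) (c : Fin d → ℝ) (v : Fin d → (Fin d → ℝ)) :
    volume (crossPolytope c v) =
      ENNReal.ofReal |(Matrix.of v).det| * ENNReal.ofReal (2 ^ d / d.factorial) := by
  rw [crossPolytope_eq hd, image_add_left, measure_preimage_add, Measure.addHaar_image_linearMap,
    vL_det, ball1_volume hd]

/-- Lower bound, general position. -/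
theorem hull_ge {n : ℕ} {K : Set (Fin (n + 1) → ℝ)} (hKc : IsCompact K)
    (hK : Convex ℝ K) (p : Fin (n + 1) → (Fin (n + 1) → ℝ))
    (hch : ∀ i : Fin (n + 1), ∃ a ∈ K, a + p i ∈ K) :
    ENNReal.ofReal |(Matrix.of p).det| *
      (((n + 2 : ℕ) : ENNReal) * (((n + 1).factorial : ENNReal))⁻¹) ≤
      volume (convexHull ℝ (K ∪ (p 0 +ᵥ K))) := by
  by_cases hdet : (Matrix.of p).det = 0
  · rw [hdet]; simp
  · have hdet' : LinearMap.det (vL p) ≠ 0 := by rwa [vL_det]
    let A : (Fin (n + 1) → ℝ) ≃ₗ[ℝ] (Fin (n + 1) → ℝ) := LinearMap.equivOfDetNeZero (vL p) hdet'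
    have hA : ∀ x, A x = vL p x := fun x => rfl
    set Kt := A.symm '' K with hKt
    have hKtc : IsCompact Kt := hKc.image (LinearMap.continuous_of_finiteDimensional
      (A.symm : (Fin (n + 1) → ℝ) →ₗ[ℝ] (Fin (n + 1) → ℝ)))
    have hKtconv : Convex ℝ Kt := hK.linear_image
      (A.symm : (Fin (n + 1) → ℝ) →ₗ[ℝ] (Fin (n + 1) → ℝ))
    have hAK : vL p '' Kt = K := by
      rw [hKt, image_image]
      have : (fun x => vL p (A.symm x)) = id := by
        funext x; exact A.apply_symm_apply x
      rw [this, image_id]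
    have hlow := hull_ge_of_chords hKtc hKtconv (by
      intro i
      obtain ⟨a, ha, ha1⟩ := hch i
      refine ⟨A.symm a, ⟨a, ha, rfl⟩, ?_⟩
      refine ⟨a + p i, ha1, ?_⟩
      rw [map_add]
      congr 1
      rw [LinearEquiv.symm_apply_eq, hA, vL_single, one_smul])
    have hhull : vL p '' (convexHull ℝ (Kt ∪ ((Pi.single 0 1 : Fin (n + 1) → ℝ) +ᵥ Kt))) =
        convexHull ℝ (K ∪ (p 0 +ᵥ K)) := by
      rw [LinearMap.image_convexHull, image_union, hAK]
      congr 2
      rw [← hAK]
      ext q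
      constructor
      · rintro ⟨_, ⟨f, hf, rfl⟩, rfl⟩
        refine ⟨vL p f, ⟨f, hf, rfl⟩, ?_⟩
        simp [vL_single]
      · rintro ⟨_, ⟨f, hf, rfl⟩, rfl⟩
        refine ⟨(Pi.single 0 1 : Fin (n + 1) → ℝ) + f, ⟨f, hf, rfl⟩, ?_⟩
        simp [vL_single]
    rw [← hhull, Measure.addHaar_image_linearMap, vL_det]
    gcongr

/-- Upper bound, general position. -/
theorem hull_le_general {n : ℕ} {K : Set (Fin (n + 1) → ℝ)} (hKc : IsCompact K)
    (hK : Convex ℝ K) (p : Fin (n + 1) → ℝ) {a : Fin (n + 1) → ℝ} (ha : a ∈ K) (ha1 : a + p ∈ K) :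
    volume (convexHull ℝ (K ∪ (p +ᵥ K))) ≤ ((n + 2 : ℕ) : ENNReal) * volume K := by
  by_cases hp : p = 0
  · subst hp
    rw [zero_vadd, union_self, hK.convexHull_eq]
    calc volume K = 1 * volume K := (one_mul _).symm
      _ ≤ ((n + 2 : ℕ) : ENNReal) * volume K := by
          gcongr
          exact_mod_cast (by omega : 1 ≤ n + 2)
  · -- an invertible linear map sending the first unit vector to `p`
    obtain ⟨A, hA⟩ : ∃ A : (Fin (n + 1) → ℝ) ≃L[ℝ] (Fin (n + 1) → ℝ), A (Pi.single 0 1) = p := by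
      have h0 : (Pi.single 0 1 : Fin (n + 1) → ℝ) ≠ 0 := by simp
      exact SeparatingDual.exists_continuousLinearEquiv_apply_eq h0 hp
    let L : (Fin (n + 1) → ℝ) →ₗ[ℝ] (Fin (n + 1) → ℝ) := A.toLinearEquiv.toLinearMap
    have hL : ∀ x, L x = A x := fun x => rfl
    set Kt := A.symm '' K with hKt
    have hKtc : IsCompact Kt := hKc.image A.symm.continuous
    have hKtconv : Convex ℝ Kt := hK.linear_image A.symm.toLinearEquiv.toLinearMap
    have hAK : L '' Kt = K := by
      rw [hKt, image_image]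
      have : (fun x => L (A.symm x)) = id := by
        funext x; exact A.apply_symm_apply x
      rw [this, image_id]
    have hup := hull_le hKtc hKtconv (a := A.symm a) ⟨a, ha, rfl⟩ (by
      refine ⟨a + p, ha1, ?_⟩
      rw [map_add, ← hA, A.symm_apply_apply])
    have hhull : L '' (convexHull ℝ (Kt ∪ ((Pi.single 0 1 : Fin (n + 1) → ℝ) +ᵥ Kt))) =
        convexHull ℝ (K ∪ (p +ᵥ K)) := by
      rw [LinearMap.image_convexHull, image_union, hAK]
      congr 2
      rw [← hAK]
      ext q
      constructor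
      · rintro ⟨_, ⟨f, hf, rfl⟩, rfl⟩
        refine ⟨L f, ⟨f, hf, rfl⟩, ?_⟩
        simp only [vadd_eq_add, hL, map_add, hA]
      · rintro ⟨_, ⟨f, hf, rfl⟩, rfl⟩
        refine ⟨(Pi.single 0 1 : Fin (n + 1) → ℝ) + f, ⟨f, hf, rfl⟩, ?_⟩
        simp only [vadd_eq_add, hL, map_add, hA]
    rw [← hhull]
    conv_rhs => rw [← hAK]
    rw [Measure.addHaar_image_linearMap, Measure.addHaar_image_linearMap]
    calc _ ≤ ENNReal.ofReal |LinearMap.det L| * (((n + 2 : ℕ) : ENNReal) * volume Kt) := by
          gcongr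
      _ = _ := by ring

end Pool.Agent.Lib.MP_87489e_co
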