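import Mathlib
import Pool.Agent.Lib.MP_87489e_co.Cross

set_option autoImplicit false

namespace Pool.Agent.Lib.MP_87489e_co

open MeasureTheory Set Pointwise
open scoped Topology

/-- the standard solid simplex -/
def Tn (n : ℕ) : Set (Fin n → ℝ) := {x | (∀ i, 0 ≤ x i) ∧ ∑ i, x i ≤ 1}

theorem Tn_closed (n : ℕ) : IsClosed (Tn n) := by
  have h1 : IsClosed {x : Fin n → ℝ | ∀ i, 0 ≤ x i} := by
    have : {x : Fin n → ℝ | ∀ i, 0 ≤ x i} = ⋂ i, {x : Fin n → ℝ | 0 ≤ x i} := by
      ext x; simp
    rw [this]
    exact isClosed_iInter fun i => isClosed_le continuous_const (continuous_apply i)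
  have h2 : IsClosed {x : Fin n → ℝ | ∑ i, x i ≤ 1} :=
    isClosed_le (by fun_prop) continuous_const
  exact h1.inter h2

theorem Tn_compact (n : ℕ) : IsCompact (Tn n) := by
  apply Metric.isCompact_of_isClosed_isBounded (Tn_closed n)
  rw [isBounded_iff_forall_norm_le]
  refine ⟨1, fun x hx => ?_⟩
  rw [pi_norm_le_iff_of_nonneg zero_le_one]
  intro i
  rw [Real.norm_of_nonneg (hx.1 i)]
  exact (Finset.single_le_sum (f := fun i => x i) (fun j _ => hx.1 j)
    (Finset.mem_univ i)).trans hx.2

theorem Tn_convex (n : ℕ) : Convex ℝ (Tn n) := by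
  intro x hx y hy a b ha hb hab
  refine ⟨fun i => ?_, ?_⟩
  · have := hx.1 i; have := hy.1 i
    simp only [Pi.add_apply, Pi.smul_apply, smul_eq_mul]
    positivity
  · simp only [Pi.add_apply, Pi.smul_apply, smul_eq_mul, Finset.sum_add_distrib, ← Finset.mul_sum]
    calc a * ∑ i, x i + b * ∑ i, y i ≤ a * 1 + b * 1 := by
          gcongr
          · exact hx.2
          · exact hy.2
      _ = 1 := by linarith

theorem Tn_volume_le : ∀ n : ℕ, volume (Tn n) ≤ ENNReal.ofReal (1 / n.factorial) := by
  intro n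
  induction n with
  | zero =>
    have : volume (univ : Set (Fin 0 → ℝ)) = 1 := by
      simp [MeasureTheory.volume_pi]
    calc volume (Tn 0) ≤ volume (univ : Set (Fin 0 → ℝ)) := measure_mono (subset_univ _)
      _ = _ := by rw [this]; simp
  | succ n ih =>
    have hc : IsCompact (hatL n '' (Tn (n + 1))) := (Tn_compact _).image (hatL_cont n)
    rw [← hat_volume, Measure.prod_apply hc.measurableSet]
    have hsec : ∀ s : ℝ, volume (Prod.mk s ⁻¹' (hatL n '' (Tn (n + 1)))) ≤
        (Icc (0:ℝ) 1).indicator (fun s => ENNReal.ofReal ((1 - s) ^ n) *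
          ENNReal.ofReal (1 / n.factorial)) s := by
      intro s
      have hmem : ∀ y ∈ Prod.mk s ⁻¹' (hatL n '' (Tn (n + 1))),
          0 ≤ s ∧ (∀ i, 0 ≤ y i) ∧ s + ∑ i, y i ≤ 1 := by
        rintro y ⟨x, hx, hxy⟩
        have h1 : x 0 = s := congrArg Prod.fst hxy
        have h2 : (fun j : Fin n => x j.succ) = y := congrArg Prod.snd hxy
        refine ⟨by rw [← h1]; exact hx.1 0, ?_, ?_⟩
        · intro i; rw [← h2]; exact hx.1 _
        · rw [← h1, ← h2, ← Fin.sum_univ_succ]; exact hx.2
      by_cases hs : s ∈ Icc (0:ℝ) 1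
      · rw [indicator_of_mem hs]
        have hsub : Prod.mk s ⁻¹' (hatL n '' (Tn (n + 1))) ⊆ (1 - s) • Tn n := by
          intro y hy
          obtain ⟨h0, h1, h2⟩ := hmem y hy
          rcases eq_or_lt_of_le hs.2 with h | h
          · have hy0 : y = 0 := by
              funext i
              have h3 : ∑ i, y i ≤ 0 := by linarith
              have h4 := Finset.single_le_sum (f := fun i => y i) (fun j _ => h1 j)
                (Finset.mem_univ i)
              have h5 := h1 i
              have h6 : y i ≤ ∑ i, y i := h4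
              have : y i = 0 := by linarith
              simpa using this
            refine ⟨0, ⟨by simp, by simp⟩, by simp [hy0]⟩
          · have hne : (1 - s) ≠ 0 := by linarith
            refine ⟨(1 - s)⁻¹ • y, ⟨?_, ?_⟩, ?_⟩
            · intro i
              simp only [Pi.smul_apply, smul_eq_mul]
              exact mul_nonneg (inv_nonneg.mpr (by linarith)) (h1 i)
            · simp only [Pi.smul_apply, smul_eq_mul, ← Finset.mul_sum]
              rw [inv_mul_le_iff₀ (by linarith)]
              linarith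
            · change (1 - s) • ((1 - s)⁻¹ • y) = y
              rw [smul_smul, mul_inv_cancel₀ hne, one_smul]
        calc volume (Prod.mk s ⁻¹' (hatL n '' (Tn (n + 1)))) ≤ volume ((1 - s) • Tn n) :=
              measure_mono hsub
          _ = ENNReal.ofReal |(1 - s) ^ n| * volume (Tn n) := by
              rw [Measure.addHaar_smul]
              simp
          _ ≤ _ := by
              rw [abs_of_nonneg (pow_nonneg (by linarith [hs.2]) _)]
              gcongr
      · rw [indicator_of_notMem hs]
        have : Prod.mk s ⁻¹' (hatL n '' (Tn (n + 1))) = ∅ := by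
          rw [eq_empty_iff_forall_notMem]
          intro y hy
          obtain ⟨h0, h1, h2⟩ := hmem y hy
          apply hs
          have : 0 ≤ ∑ i, y i := Finset.sum_nonneg fun i _ => h1 i
          exact ⟨h0, by linarith⟩
        rw [this, measure_empty]
    refine (lintegral_mono hsec).trans ?_
    rw [lintegral_indicator measurableSet_Icc, lintegral_mul_const]
    · rw [← ofReal_integral_eq_lintegral_ofReal]
      · rw [integral_Icc_eq_integral_Ioc, ← intervalIntegral.integral_of_le zero_le_one]
        have := intervalIntegral.integral_comp_sub_left (fun x : ℝ => x ^ n) (1 : ℝ)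
          (a := 0) (b := 1)
        rw [this, ← ENNReal.ofReal_mul]
        · apply le_of_eq
          congr 1
          simp only [sub_self, sub_zero, integral_pow, one_pow, Nat.factorial_succ]
          push_cast
          have : (n.factorial : ℝ) ≠ 0 := by positivity
          field_simp
          simp
        · simp only [sub_self, sub_zero, integral_pow, one_pow]
          simp
          positivity
      · have hc : Continuous (fun s : ℝ => (1 - s) ^ n) := by fun_prop
        exact hc.integrableOn_Icc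
      · refine (ae_restrict_iff' measurableSet_Icc).mpr (Filter.Eventually.of_forall ?_)
        intro s hs
        have := hs.2
        exact pow_nonneg (by linarith) _
    · fun_prop

/-- sign flips followed by a translation preserve the volume -/
theorem flip_volume {n : ℕ} (σ : Fin n → ℝ) (hσ : ∀ i, |σ i| = 1) (S : Set (Fin n → ℝ)) :
    volume ((fun z : Fin n → ℝ => fun i => σ i * (1 - z i)) '' S) = volume S := by
  have h1 : (fun z : Fin n → ℝ => fun i => σ i * (1 - z i)) '' S =
      (fun x => σ + x) '' (vL (fun i => Pi.single i (- σ i)) '' S) := by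
    rw [image_image]
    congr 1
    funext z i
    rw [vL_apply]
    simp only [Pi.add_apply, Finset.sum_apply, Pi.smul_apply, smul_eq_mul]
    rw [Finset.sum_eq_single i]
    · simp; ring
    · intro j _ hj
      simp [hj.symm]
    · simp
  have h2 : (Matrix.of (fun i : Fin n => (Pi.single i (- σ i) : Fin n → ℝ))) =
      Matrix.diagonal (fun i => - σ i) := by
    ext i j
    simp only [Matrix.of_apply, Matrix.diagonal_apply, Pi.single_apply]
    by_cases h : i = j
    · subst h; simp
    · have h' : ¬ j = i := fun h2 => h h2.symm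
      simp [h, h']
  rw [h1, image_add_left, measure_preimage_add, Measure.addHaar_image_linearMap, vL_det, h2,
    Matrix.det_diagonal, Finset.abs_prod]
  simp [hσ]

/-- the cuboctahedron -/
def cubo : Set (Fin 3 → ℝ) := {y | (∀ i, |y i| ≤ 1) ∧ ∑ i, |y i| ≤ 2}

theorem cubo_volume : 8 ≤ volume cubo + 8 * volume (Tn 3) := by
  have hcube : volume (Icc (fun _ => -1) (fun _ => 1) : Set (Fin 3 → ℝ)) = 8 := by
    rw [Real.volume_Icc_pi]
    simp only [Finset.prod_const, Finset.card_univ, Fintype.card_fin]
    rw [← ENNReal.ofReal_pow (by norm_num)]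
    norm_num
  let sg : (Fin 3 → Bool) → (Fin 3 → ℝ) := fun b i => if b i then 1 else -1
  have hsg : ∀ b i, |sg b i| = 1 := by
    intro b i
    simp only [sg]
    split_ifs <;> simp
  have hcov : (Icc (fun _ => -1) (fun _ => 1) : Set (Fin 3 → ℝ)) ⊆
      cubo ∪ ⋃ b : Fin 3 → Bool, (fun z : Fin 3 → ℝ => fun i => sg b i * (1 - z i)) '' (Tn 3) := by
    intro y hy
    by_cases hc : y ∈ cubo
    · exact Or.inl hc
    · right
      have habs : ∀ i, |y i| ≤ 1 := fun i => abs_le.mpr ⟨hy.1 i, hy.2 i⟩
      have hsum : 2 < ∑ i, |y i| := by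
        by_contra h
        push Not at h
        exact hc ⟨habs, h⟩
      rw [mem_iUnion]
      refine ⟨fun i => decide (0 ≤ y i), fun i => 1 - |y i|, ⟨fun i => ?_, ?_⟩, ?_⟩
      · have := habs i; linarith
      · rw [Fin.sum_univ_three] at hsum ⊢
        linarith
      · funext i
        simp only [sg, decide_eq_true_eq, sub_sub_cancel]
        split_ifs with h
        · rw [abs_of_nonneg h]; ring
        · push Not at h
          rw [abs_of_neg h]; ring
  calc (8 : ENNReal) = volume (Icc (fun _ => -1) (fun _ => 1) : Set (Fin 3 → ℝ)) := hcube.symm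
    _ ≤ volume (cubo ∪ ⋃ b : Fin 3 → Bool,
        (fun z : Fin 3 → ℝ => fun i => sg b i * (1 - z i)) '' (Tn 3)) := measure_mono hcov
    _ ≤ volume cubo + volume (⋃ b : Fin 3 → Bool,
        (fun z : Fin 3 → ℝ => fun i => sg b i * (1 - z i)) '' (Tn 3)) := measure_union_le _ _
    _ ≤ volume cubo + ∑ b : Fin 3 → Bool,
        volume ((fun z : Fin 3 → ℝ => fun i => sg b i * (1 - z i)) '' (Tn 3)) := by
        gcongr
        exact measure_iUnion_fintype_le _ _
    _ = volume cubo + 8 * volume (Tn 3) := by
        congr 1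
        rw [Finset.sum_congr rfl (fun b _ => flip_volume (sg b) (hsg b) (Tn 3))]
        simp

/-- the vertices of the regular tetrahedron (besides the origin) -/
def tv : Fin 3 → (Fin 3 → ℝ) := ![![1, 1, 0], ![1, 0, 1], ![0, 1, 1]]

/-- the regular tetrahedron inscribed in the unit cube -/
noncomputable def tetra : Set (Fin 3 → ℝ) := vL tv '' (Tn 3)

theorem tv_det : (Matrix.of tv).det = -2 := by
  rw [Matrix.det_fin_three]
  simp [tv]
  norm_num

theorem tetra_volume : volume tetra = 2 * volume (Tn 3) := by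
  rw [tetra, Measure.addHaar_image_linearMap, vL_det, tv_det]
  norm_num

theorem cubo_subset : cubo ⊆ tetra - tetra := by
  intro y hy
  obtain ⟨h1, h2⟩ := hy
  rw [Fin.sum_univ_three] at h2
  have b0 := abs_le.mp (h1 0)
  have b1 := abs_le.mp (h1 1)
  have b2 := abs_le.mp (h1 2)
  let x : Fin 3 → ℝ := ![(y 0 + y 1 - y 2) / 2, (y 0 + y 2 - y 1) / 2, (y 1 + y 2 - y 0) / 2]
  have hx : vL tv x = y := by
    rw [vL_apply, Fin.sum_univ_three]
    ext i
    fin_cases i <;> simp [x, tv] <;> ring
  have c0 := le_abs_self (y 0); have c1 := le_abs_self (y 1); have c2 := le_abs_self (y 2)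
  have d0 := neg_abs_le (y 0); have d1 := neg_abs_le (y 1); have d2 := neg_abs_le (y 2)
  have hp : (fun i => max (x i) 0) ∈ Tn 3 := by
    refine ⟨fun i => le_max_right _ _, ?_⟩
    rw [Fin.sum_univ_three]
    simp only [x, Matrix.cons_val_zero, Matrix.cons_val_one, Matrix.cons_val_two,
      Matrix.head_cons, Matrix.tail_cons]
    rcases max_cases ((y 0 + y 1 - y 2) / 2) 0 with ⟨e0, -⟩ | ⟨e0, -⟩ <;>
    rcases max_cases ((y 0 + y 2 - y 1) / 2) 0 with ⟨e1, -⟩ | ⟨e1, -⟩ <;>
    rcases max_cases ((y 1 + y 2 - y 0) / 2) 0 with ⟨e2, -⟩ | ⟨e2, -⟩ <;>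
    rw [e0, e1, e2] <;> linarith
  have hm : (fun i => max (- x i) 0) ∈ Tn 3 := by
    refine ⟨fun i => le_max_right _ _, ?_⟩
    rw [Fin.sum_univ_three]
    simp only [x, Matrix.cons_val_zero, Matrix.cons_val_one, Matrix.cons_val_two,
      Matrix.head_cons, Matrix.tail_cons]
    rcases max_cases (-((y 0 + y 1 - y 2) / 2)) 0 with ⟨e0, -⟩ | ⟨e0, -⟩ <;>
    rcases max_cases (-((y 0 + y 2 - y 1) / 2)) 0 with ⟨e1, -⟩ | ⟨e1, -⟩ <;>
    rcases max_cases (-((y 1 + y 2 - y 0) / 2)) 0 with ⟨e2, -⟩ | ⟨e2, -⟩ <;>
    rw [e0, e1, e2] <;> linarith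
  refine ⟨vL tv (fun i => max (x i) 0), ⟨_, hp, rfl⟩, vL tv (fun i => max (- x i) 0),
    ⟨_, hm, rfl⟩, ?_⟩
  simp only
  rw [← map_sub, ← hx]
  congr 1
  funext i
  simp only [Pi.sub_apply]
  rcases le_total 0 (x i) with h | h
  · rw [max_eq_left h, max_eq_right (by linarith), sub_zero]
  · rw [max_eq_right h, max_eq_left (by linarith)]; ring

/-- The difference body of a tetrahedron. -/
theorem tetra_diff : 20 * volume tetra ≤ volume (tetra - tetra) := by
  have h1 : volume (Tn 3) ≤ ENNReal.ofReal (1 / 6) := by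
    have := Tn_volume_le 3
    simpa [Nat.factorial] using this
  have hfin : volume (Tn 3) ≠ ⊤ := (Tn_compact 3).measure_lt_top.ne
  have h2 : volume cubo ≤ volume (tetra - tetra) := measure_mono cubo_subset
  have h3 := cubo_volume
  rw [tetra_volume]
  have h4 : (20 : ENNReal) * (2 * volume (Tn 3)) + 8 * volume (Tn 3) ≤ 8 := by
    calc (20 : ENNReal) * (2 * volume (Tn 3)) + 8 * volume (Tn 3) = 48 * volume (Tn 3) := by ring
      _ ≤ 48 * ENNReal.ofReal (1 / 6) := by gcongr
      _ = 8 := by
        have : (48 : ENNReal) = ENNReal.ofReal 48 := by norm_num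
        rw [this, ← ENNReal.ofReal_mul (by norm_num)]
        norm_num
  have h5 : (20 : ENNReal) * (2 * volume (Tn 3)) + 8 * volume (Tn 3) ≤
      volume (tetra - tetra) + 8 * volume (Tn 3) := h4.trans (h3.trans (by gcongr))
  have h6 : (8 : ENNReal) * volume (Tn 3) ≠ ⊤ := ENNReal.mul_ne_top (by simp) hfin
  exact (ENNReal.add_le_add_iff_right h6).mp h5

theorem tetra_compact : IsCompact tetra :=
  (Tn_compact 3).image (LinearMap.continuous_of_finiteDimensional _)

theorem tetra_convex : Convex ℝ tetra := (Tn_convex 3).linear_image _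

theorem tetra_interior : (interior tetra).Nonempty := by
  let U : Set (Fin 3 → ℝ) := {y | y 0 + y 1 + y 2 < 2} ∩ ({y | y 2 < y 0 + y 1} ∩
    ({y | y 1 < y 0 + y 2} ∩ {y | y 0 < y 1 + y 2}))
  have hU : IsOpen U := by
    refine IsOpen.inter (isOpen_lt (by fun_prop) (by fun_prop)) (IsOpen.inter
      (isOpen_lt (by fun_prop) (by fun_prop)) (IsOpen.inter
      (isOpen_lt (by fun_prop) (by fun_prop)) (isOpen_lt (by fun_prop) (by fun_prop))))
  have hsub : U ⊆ tetra := by
    rintro y ⟨h1, h2, h3, h4⟩
    rw [mem_ofPred_eq] at h1 h2 h3 h4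
    refine ⟨![(y 0 + y 1 - y 2) / 2, (y 0 + y 2 - y 1) / 2, (y 1 + y 2 - y 0) / 2], ⟨?_, ?_⟩, ?_⟩
    · intro i
      fin_cases i <;> simp <;> linarith
    · rw [Fin.sum_univ_three]
      simp only [Matrix.cons_val_zero, Matrix.cons_val_one, Matrix.cons_val]
      linarith
    · rw [vL_apply, Fin.sum_univ_three]
      ext i
      fin_cases i <;> simp [tv] <;> ring
  refine ⟨fun _ => 1 / 2, ?_⟩
  apply interior_maximal hsub hU
  refine ⟨?_, ?_, ?_, ?_⟩ <;> rw [mem_ofPred_eq] <;> norm_num

end Pool.Agent.Lib.MP_87489e_co
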