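import Mathlib
import Pool.Agent.Lib.MP_87489e_co.Fubini

set_option autoImplicit false

namespace Pool.Agent.Lib.MP_87489e_co

open MeasureTheory Set Pointwise
open scoped Topology

section
variable {F : Type*} [NormedAddCommGroup F] [NormedSpace ℝ F] [MeasurableSpace F] [BorelSpace F]
  [FiniteDimensional ℝ F] (μ : Measure F) [μ.IsAddHaarMeasure]

omit [NormedSpace ℝ F] [MeasurableSpace F] [BorelSpace F] [FiniteDimensional ℝ F] in
theorem seg_compact {K : Set (ℝ × F)} (hKc : IsCompact K) (s : ℝ) :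
    IsCompact {q : ℝ × F | ∃ θ ∈ Icc (0:ℝ) s, (q.1 - θ, q.2) ∈ K} := by
  have : {q : ℝ × F | ∃ θ ∈ Icc (0:ℝ) s, (q.1 - θ, q.2) ∈ K} =
      (fun r : (ℝ × F) × ℝ => (r.1.1 + r.2, r.1.2)) '' (K ×ˢ Icc (0:ℝ) s) := by
    ext ⟨t, y⟩
    simp only [mem_ofPred_eq, mem_image, mem_prod, Prod.exists, Prod.mk.injEq]
    constructor
    · rintro ⟨θ, hθ, h⟩
      exact ⟨t - θ, y, θ, ⟨h, hθ⟩, by ring, rfl⟩
    · rintro ⟨a, b, c, ⟨h, hc⟩, rfl, rfl⟩
      exact ⟨c, hc, by simpa using h⟩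
  rw [this]
  apply (hKc.prod isCompact_Icc).image
  fun_prop

/-- Exact volume of the sum of `K` and a segment of length `s` in the first direction. -/
theorem seg_volume {K : Set (ℝ × F)} (hKc : IsCompact K) (hK : Convex ℝ K) {s : ℝ} (hs : 0 ≤ s) :
    ((volume : Measure ℝ).prod μ) {q : ℝ × F | ∃ θ ∈ Icc (0:ℝ) s, (q.1 - θ, q.2) ∈ K} =
      ((volume : Measure ℝ).prod μ) K + ENNReal.ofReal s * μ (Prod.snd '' K) := by
  set N := {q : ℝ × F | ∃ θ ∈ Icc (0:ℝ) s, (q.1 - θ, q.2) ∈ K} with hN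
  have hNc : IsCompact N := seg_compact hKc s
  have hmK' : MeasurableSet (Prod.snd '' K) := (hKc.image continuous_snd).measurableSet
  rw [Measure.prod_apply_symm hNc.measurableSet, Measure.prod_apply_symm hKc.measurableSet,
    ← lintegral_indicator_const hmK',
    ← lintegral_add_right _ (measurable_const.indicator hmK')]
  apply lintegral_congr
  intro y
  have hfibK : (fun x => (x, y)) ⁻¹' K = fib K y := rfl
  have hfibN : (fun x => (x, y)) ⁻¹' N = fib N y := rfl
  rw [hfibK, hfibN]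
  by_cases hy : y ∈ Prod.snd '' K
  · rw [indicator_of_mem hy]
    obtain ⟨⟨t1, y1⟩, h1, rfl⟩ := hy
    simp only
    have hne : (fib K y1).Nonempty := ⟨t1, h1⟩
    have hcon : IsConnected (fib K y1) := ⟨hne, (fib_convex hK y1).isPreconnected⟩
    have hIcc := eq_Icc_of_connected_compact hcon (fib_compact hKc y1)
    set α := sInf (fib K y1)
    set β := sSup (fib K y1)
    have hαβ : α ≤ β := by
      rw [hIcc] at hne
      exact nonempty_Icc.mp hne
    have hNfib : fib N y1 = Icc α (β + s) := by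
      ext t
      simp only [fib, hN, mem_ofPred_eq]
      constructor
      · rintro ⟨θ, hθ, h⟩
        have : t - θ ∈ fib K y1 := h
        rw [hIcc] at this
        exact ⟨by linarith [this.1, hθ.1], by linarith [this.2, hθ.2]⟩
      · rintro ⟨hl, hr⟩
        have hmem : ∀ s, α ≤ s → s ≤ β → (s, y1) ∈ K := by
          intro s h1 h2
          have : s ∈ fib K y1 := by rw [hIcc]; exact ⟨h1, h2⟩
          exact this
        rcases le_total t β with h | h
        · exact ⟨0, ⟨le_rfl, hs⟩, hmem _ (by linarith) (by linarith)⟩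
        · exact ⟨t - β, ⟨by linarith, by linarith⟩, hmem _ (by linarith) (by linarith)⟩
    rw [hNfib, hIcc, Real.volume_Icc, Real.volume_Icc]
    rw [← ENNReal.ofReal_add (by linarith) hs]
    congr 1
    ring
  · rw [indicator_of_notMem hy]
    have e1 : fib K y = ∅ := by
      ext t
      simp only [fib, mem_ofPred_eq, mem_empty_iff_false, iff_false]
      intro h
      exact hy ⟨(t, y), h, rfl⟩
    have e2 : fib N y = ∅ := by
      ext t
      simp only [fib, hN, mem_ofPred_eq, mem_empty_iff_false, iff_false]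
      rintro ⟨θ, -, h⟩
      exact hy ⟨(t - θ, y), h, rfl⟩
    rw [e1, e2]
    simp

end

/-- splitting off the coordinate `i` -/
def hatI {n : ℕ} (i : Fin (n + 1)) : (Fin (n + 1) → ℝ) →ₗ[ℝ] ℝ × (Fin n → ℝ) where
  toFun f := (f i, fun j => f (i.succAbove j))
  map_add' _ _ := rfl
  map_smul' _ _ := rfl

theorem hatI_cont {n : ℕ} (i : Fin (n + 1)) : Continuous (hatI i) := by
  refine Continuous.prodMk (continuous_apply i) ?_
  exact continuous_pi fun j => continuous_apply _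

theorem hatI_inj {n : ℕ} (i : Fin (n + 1)) : Function.Injective (hatI i) := by
  intro f g h
  have h1 : f i = g i := congrArg Prod.fst h
  have h2 : (fun j : Fin n => f (i.succAbove j)) = fun j => g (i.succAbove j) := congrArg Prod.snd h
  funext j
  refine Fin.succAboveCases i h1 (fun j => congrFun h2 j) j

theorem hatI_surj {n : ℕ} (i : Fin (n + 1)) : Function.Surjective (hatI i) := by
  rintro ⟨a, g⟩
  refine ⟨Fin.insertNth i a g, ?_⟩
  ext j
  · simp [hatI]
  · simp [hatI]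

theorem hatI_volume {n : ℕ} (i : Fin (n + 1)) (K : Set (Fin (n + 1) → ℝ)) :
    ((volume : Measure ℝ).prod (volume : Measure (Fin n → ℝ))) (hatI i '' K) = volume K := by
  have hmp := volume_preserving_piFinSuccAbove (fun _ : Fin (n + 1) => ℝ) i
  have h1 := hmp.measure_preimage_equiv (hatI i '' K)
  rw [← Measure.volume_eq_prod, ← h1]
  congr 1
  have : ⇑(MeasurableEquiv.piFinSuccAbove (fun _ : Fin (n + 1) => ℝ) i) = hatI i := by
    funext f
    rfl
  rw [this, preimage_image_eq _ (hatI_inj i)]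

theorem hatI_single {n : ℕ} (i : Fin (n + 1)) (r : ℝ) :
    (hatI i (Pi.single i r)) = (r, 0) := by
  ext
  · simp [hatI]
  · simp [hatI, Fin.succAbove_ne]

/-- `K` plus a segment of length `s` in direction `i` -/
def seg {n : ℕ} (i : Fin n) (s : ℝ) (K : Set (Fin n → ℝ)) : Set (Fin n → ℝ) :=
  {x | ∃ θ ∈ Icc (0:ℝ) s, x - Pi.single i θ ∈ K}

/-- the projection forgetting coordinate `i` -/
def drp {n : ℕ} (i : Fin (n + 1)) (K : Set (Fin (n + 1) → ℝ)) : Set (Fin n → ℝ) :=
  (fun f : Fin (n + 1) → ℝ => fun j => f (i.succAbove j)) '' K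

theorem drp_eq {n : ℕ} (i : Fin (n + 1)) (K : Set (Fin (n + 1) → ℝ)) :
    drp i K = Prod.snd '' (hatI i '' K) := by
  rw [image_image]
  rfl

theorem seg_hat {n : ℕ} (i : Fin (n + 1)) (s : ℝ) (K : Set (Fin (n + 1) → ℝ)) :
    hatI i '' (seg i s K) = {q : ℝ × (Fin n → ℝ) | ∃ θ ∈ Icc (0:ℝ) s, (q.1 - θ, q.2) ∈ hatI i '' K} := by
  ext q
  constructor
  · rintro ⟨x, ⟨θ, hθ, hx⟩, rfl⟩
    refine ⟨θ, hθ, _, hx, ?_⟩
    rw [map_sub, hatI_single]
    ext
    · simp
    · simp
  · rintro ⟨θ, hθ, y, hy, hyq⟩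
    refine ⟨y + Pi.single i θ, ⟨θ, hθ, by simpa using hy⟩, ?_⟩
    rw [map_add, hatI_single, hyq]
    ext
    · simp
    · simp

theorem seg_isCompact {n : ℕ} (i : Fin (n + 1)) (s : ℝ) {K : Set (Fin (n + 1) → ℝ)}
    (hK : IsCompact K) : IsCompact (seg i s K) := by
  have : seg i s K = (fun r : (Fin (n + 1) → ℝ) × ℝ => r.1 + Pi.single i r.2) ''
      (K ×ˢ Icc (0:ℝ) s) := by
    ext x
    constructor
    · rintro ⟨θ, hθ, hx⟩
      exact ⟨(x - Pi.single i θ, θ), ⟨hx, hθ⟩, by simp⟩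
    · rintro ⟨⟨y, θ⟩, ⟨hy, hθ⟩, rfl⟩
      exact ⟨θ, hθ, by simpa using hy⟩
  rw [this]
  apply (hK.prod isCompact_Icc).image
  have : Continuous (fun r : (Fin (n + 1) → ℝ) × ℝ => (Pi.single i r.2 : Fin (n + 1) → ℝ)) :=
    (continuous_single i).comp continuous_snd
  exact continuous_fst.add this

theorem seg_isConvex {n : ℕ} (i : Fin (n + 1)) (s : ℝ) {K : Set (Fin (n + 1) → ℝ)}
    (hK : Convex ℝ K) : Convex ℝ (seg i s K) := by
  rintro x ⟨θ, hθ, hx⟩ y ⟨η, hη, hy⟩ a b ha hb hab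
  refine ⟨a * θ + b * η, ?_, ?_⟩
  · exact (convex_Icc (0:ℝ) s) hθ hη ha hb hab
  · have := hK hx hy ha hb hab
    convert this using 1
    have e : (Pi.single i (a * θ + b * η) : Fin (n + 1) → ℝ) =
        a • Pi.single i θ + b • Pi.single i η := by
      rw [← Pi.single_smul', ← Pi.single_smul', ← Pi.single_add]
      rfl
    rw [e]
    module

theorem volume_seg {n : ℕ} (i : Fin (n + 1)) {s : ℝ} (hs : 0 ≤ s) {K : Set (Fin (n + 1) → ℝ)}
    (hKc : IsCompact K) (hK : Convex ℝ K) :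
    volume (seg i s K) = volume K + ENNReal.ofReal s * volume (drp i K) := by
  rw [← hatI_volume i, seg_hat, seg_volume _ (hKc.image (hatI_cont i)) (hK.linear_image (hatI i)) hs,
    hatI_volume, drp_eq]

theorem drp_isCompact {n : ℕ} (i : Fin (n + 1)) {K : Set (Fin (n + 1) → ℝ)}
    (hK : IsCompact K) : IsCompact (drp i K) := by
  apply hK.image
  exact continuous_pi fun j => continuous_apply _

/-- every point of `seg i s K` is within `s` of `K` -/
theorem seg_near {n : ℕ} (i : Fin (n + 1)) {s : ℝ} {K : Set (Fin (n + 1) → ℝ)}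
    {x : Fin (n + 1) → ℝ} (hx : x ∈ seg i s K) : ∃ y ∈ K, dist x y ≤ s := by
  obtain ⟨θ, hθ, h⟩ := hx
  refine ⟨_, h, ?_⟩
  rw [dist_eq_norm, sub_sub_cancel, Pi.norm_single, Real.norm_of_nonneg hθ.1]
  exact hθ.2

theorem drp_near {n : ℕ} (i : Fin (n + 1)) {s : ℝ} (hs : 0 ≤ s) {K K' : Set (Fin (n + 1) → ℝ)}
    (h : ∀ x ∈ K', ∃ y ∈ K, dist x y ≤ s) : drp i K' ⊆ Metric.cthickening s (drp i K) := by
  rintro _ ⟨x, hx, rfl⟩
  obtain ⟨y, hy, hxy⟩ := h x hx
  refine Metric.mem_cthickening_of_dist_le _ (fun j => y (i.succAbove j)) s _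
    (mem_image_of_mem _ hy) ?_
  rw [dist_pi_le_iff hs] at hxy ⊢
  intro j
  exact hxy _

end Pool.Agent.Lib.MP_87489e_co
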