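import Mathlib
import Pool.Agent.Lib.MP_87489e_co.Mixed
import Pool.Agent.Lib.MP_87489e_co.Segs

set_option autoImplicit false

namespace Pool.Agent.Lib.MP_87489e_co

open MeasureTheory Set Pointwise
open scoped Topology

/-- real-valued volume of the projection -/
noncomputable def mr {n : ℕ} (i : Fin (n + 1)) (K : Set (Fin (n + 1) → ℝ)) : ℝ :=
  (volume (drp i K)).toReal

theorem toReal_volume_seg {n : ℕ} (i : Fin (n + 1)) {s : ℝ} (hs : 0 ≤ s)
    {K : Set (Fin (n + 1) → ℝ)} (hKc : IsCompact K) (hK : Convex ℝ K) :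
    (volume (seg i s K)).toReal = (volume K).toReal + s * mr i K := by
  rw [volume_seg i hs hKc hK, ENNReal.toReal_add hKc.measure_lt_top.ne, ENNReal.toReal_mul,
    ENNReal.toReal_ofReal hs]
  · rfl
  · exact ENNReal.mul_ne_top ENNReal.ofReal_ne_top (drp_isCompact i hKc).measure_lt_top.ne

theorem W3_le {K : Set (Fin 3 → ℝ)} (hKc : IsCompact K) (hK : Convex ℝ K) (hKn : K.Nonempty)
    (h1 : ∀ x ∈ K, ∀ y ∈ K, ∀ i, x i - y i ≤ 1) {t : ℝ} (ht : 0 < t) :
    W3 K (-K) t ≤ (volume K).toReal + t * (mr 0 K +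
      (volume (Metric.cthickening (2 * t) (drp 1 K))).toReal +
      (volume (Metric.cthickening (2 * t) (drp 2 K))).toReal) := by
  set K1 := seg 0 t K with hK1
  set K2 := seg 1 t K1 with hK2
  set K3 := seg 2 t K2 with hK3
  have c1 : IsCompact K1 := seg_isCompact _ _ hKc
  have c2 : IsCompact K2 := seg_isCompact _ _ c1
  have c3 : IsCompact K3 := seg_isCompact _ _ c2
  have x1 : Convex ℝ K1 := seg_isConvex _ _ hK
  have x2 : Convex ℝ K2 := seg_isConvex _ _ x1
  -- the corner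
  let β : Fin 3 → ℝ := fun i => sSup ((fun y : Fin 3 → ℝ => y i) '' K)
  have hbdd : ∀ i, BddAbove ((fun y : Fin 3 → ℝ => y i) '' K) := fun i =>
    (hKc.image (continuous_apply i)).bddAbove
  have hβ1 : ∀ y ∈ K, ∀ i, y i ≤ β i := fun y hy i => le_csSup (hbdd i) ⟨y, hy, rfl⟩
  have hβ2 : ∀ y ∈ K, ∀ i, β i - y i ≤ 1 := by
    intro y hy i
    have : β i ≤ y i + 1 := by
      apply csSup_le (hKn.image _)
      rintro _ ⟨x, hx, rfl⟩
      have := h1 x hx y hy i
      simp only
      linarith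
    linarith
  have hsub : K + t • (-K) ⊆ (-(t • β)) +ᵥ K3 := by
    rintro _ ⟨x, hx, _, ⟨y', hy, rfl⟩, rfl⟩
    obtain ⟨y, rfl⟩ : ∃ y, y' = -y := ⟨-y', by simp⟩
    have hy' : y ∈ K := by simpa using hy
    have hθ : ∀ i, t * (β i - y i) ∈ Icc (0:ℝ) t := by
      intro i
      have e1 := hβ1 y hy' i
      have e2 := hβ2 y hy' i
      constructor
      · exact mul_nonneg ht.le (by linarith)
      · nlinarith
    refine ⟨x + t • (β - y), ⟨t * (β 2 - y 2), hθ 2, t * (β 1 - y 1), hθ 1, t * (β 0 - y 0), hθ 0, ?_⟩, ?_⟩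
    · convert hx using 1
      ext i
      fin_cases i <;> simp
    · simp only [vadd_eq_add]
      module
  have hnear1 : ∀ x ∈ K1, ∃ y ∈ K, dist x y ≤ 2 * t := by
    intro x hx
    obtain ⟨y, hy, hxy⟩ := seg_near 0 hx
    exact ⟨y, hy, by linarith⟩
  have hnear2 : ∀ x ∈ K2, ∃ y ∈ K, dist x y ≤ 2 * t := by
    intro x hx
    obtain ⟨y, hy, hxy⟩ := seg_near 1 hx
    obtain ⟨z, hz, hyz⟩ := seg_near 0 hy
    exact ⟨z, hz, by linarith [dist_triangle x y z]⟩
  have hb : ∀ i : Fin 3, volume (Metric.cthickening (2 * t) (drp i K)) ≠ ⊤ := fun i =>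
    (drp_isCompact i hKc).cthickening.measure_lt_top.ne
  have m1 : mr 1 K1 ≤ (volume (Metric.cthickening (2 * t) (drp 1 K))).toReal :=
    ENNReal.toReal_mono (hb 1) (measure_mono (drp_near 1 (by positivity) hnear1))
  have m2 : mr 2 K2 ≤ (volume (Metric.cthickening (2 * t) (drp 2 K))).toReal :=
    ENNReal.toReal_mono (hb 2) (measure_mono (drp_near 2 (by positivity) hnear2))
  have hle : W3 K (-K) t ≤ (volume K3).toReal := by
    rw [W3]
    apply ENNReal.toReal_mono c3.measure_lt_top.ne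
    calc volume (K + t • (-K)) ≤ volume ((-(t • β)) +ᵥ K3) := measure_mono hsub
      _ = volume K3 := measure_vadd _ _ _
  rw [hK3, toReal_volume_seg 2 ht.le c2 x2, hK2, toReal_volume_seg 1 ht.le c1 x1, hK1,
    toReal_volume_seg 0 ht.le hKc hK] at hle
  nlinarith [mul_le_mul_of_nonneg_left m1 ht.le, mul_le_mul_of_nonneg_left m2 ht.le]

/-- Bound for the difference body. -/
theorem W3_one_le {K : Set (Fin 3 → ℝ)} (hKc : IsCompact K) (hK : Convex ℝ K) (hKn : K.Nonempty)
    (h1 : ∀ x ∈ K, ∀ y ∈ K, ∀ i, x i - y i ≤ 1) :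
    W3 K (-K) 1 ≤ 2 * (volume K).toReal + 2 * (mr 0 K + mr 1 K + mr 2 K) := by
  obtain ⟨a1, ha⟩ := W3_sym hKc hK hKn
  have key : ∀ t : ℝ, 0 < t → a1 + a1 * t + (volume K).toReal * t ^ 2 ≤ mr 0 K +
      (volume (Metric.cthickening (2 * t) (drp 1 K))).toReal +
      (volume (Metric.cthickening (2 * t) (drp 2 K))).toReal := by
    intro t ht
    have h2 := W3_le hKc hK hKn h1 ht
    rw [ha t ht.le] at h2
    have h3 : t * (a1 + a1 * t + (volume K).toReal * t ^ 2) ≤ t * (mr 0 K +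
      (volume (Metric.cthickening (2 * t) (drp 1 K))).toReal +
      (volume (Metric.cthickening (2 * t) (drp 2 K))).toReal) := by
      nlinarith
    exact le_of_mul_le_mul_left h3 ht
  have hlim1 : Filter.Tendsto (fun t : ℝ => a1 + a1 * t + (volume K).toReal * t ^ 2) (𝓝[>] 0)
      (𝓝 a1) := by
    have hc : Continuous (fun t : ℝ => a1 + a1 * t + (volume K).toReal * t ^ 2) := by fun_prop
    have := hc.tendsto 0
    simp only [mul_zero, add_zero, ne_eq, OfNat.ofNat_ne_zero, not_false_eq_true, zero_pow] at this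
    exact this.mono_left nhdsWithin_le_nhds
  have hlimc : ∀ i : Fin 3, Filter.Tendsto
      (fun t : ℝ => (volume (Metric.cthickening (2 * t) (drp i K))).toReal) (𝓝[>] 0)
      (𝓝 (mr i K)) := by
    intro i
    have h3 := tendsto_measure_cthickening_of_isCompact (μ := (volume : Measure (Fin 2 → ℝ)))
      (drp_isCompact i hKc)
    have h4 : Filter.Tendsto (fun t : ℝ => 2 * t) (𝓝[>] 0) (𝓝 0) := by
      have hc : Continuous (fun t : ℝ => 2 * t) := by fun_prop
      have := hc.tendsto 0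
      rw [mul_zero] at this
      exact this.mono_left nhdsWithin_le_nhds
    have h5 := h3.comp h4
    exact (ENNReal.tendsto_toReal (drp_isCompact i hKc).measure_lt_top.ne).comp h5
  have hlim2 := (tendsto_const_nhds (x := mr 0 K)).add (hlimc 1) |>.add (hlimc 2)
  have hle : a1 ≤ mr 0 K + mr 1 K + mr 2 K := by
    apply le_of_tendsto_of_tendsto hlim1 hlim2
    filter_upwards [self_mem_nhdsWithin] with t ht
    exact key t ht
  rw [ha 1 zero_le_one]
  linarith

end Pool.Agent.Lib.MP_87489e_co
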