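import Mathlib
import Pool.Agent.Lib.MP_87489e_co.BusBound
import Pool.Agent.Lib.MP_87489e_co.Cross

set_option autoImplicit false

namespace Pool.Agent.Lib.MP_87489e_co

open MeasureTheory Set Pointwise
open scoped Topology

theorem seg_subset_hull {n : ℕ} (i : Fin n) (K : Set (Fin n → ℝ)) :
    seg i 1 K ⊆ convexHull ℝ (K ∪ ((Pi.single i 1 : Fin n → ℝ) +ᵥ K)) := by
  rintro x ⟨θ, hθ, h⟩
  have h1 : x - Pi.single i θ ∈ convexHull ℝ (K ∪ ((Pi.single i 1 : Fin n → ℝ) +ᵥ K)) :=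
    subset_convexHull ℝ _ (Or.inl h)
  have h2 : Pi.single i 1 + (x - Pi.single i θ) ∈
      convexHull ℝ (K ∪ ((Pi.single i 1 : Fin n → ℝ) +ᵥ K)) := by
    apply subset_convexHull ℝ _
    exact Or.inr ⟨_, h, rfl⟩
  have := convex_convexHull ℝ (K ∪ ((Pi.single i 1 : Fin n → ℝ) +ᵥ K)) h1 h2
    (by linarith [hθ.2] : (0:ℝ) ≤ 1 - θ) hθ.1 (by ring)
  convert this using 1
  have e : (Pi.single i θ : Fin n → ℝ) = θ • Pi.single i 1 := by
    rw [← Pi.single_smul']
    simp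
  rw [e]
  module

theorem mr_le {K : Set (Fin 3 → ℝ)} (hKc : IsCompact K) (hK : Convex ℝ K) (i : Fin 3)
    {a : Fin 3 → ℝ} (ha : a ∈ K) (ha1 : a + Pi.single i 1 ∈ K) :
    mr i K ≤ 3 * (volume K).toReal := by
  have h0 : ((hatI i a).1, (hatI i a).2) ∈ hatI i '' K := ⟨a, ha, rfl⟩
  have h1 : ((hatI i a).1 + 1, (hatI i a).2) ∈ hatI i '' K := by
    refine ⟨_, ha1, ?_⟩
    rw [map_add, hatI_single]
    ext
    · simp
    · simp
  have hproj := proj_le (volume : Measure (Fin 2 → ℝ)) (hKc.image (hatI_cont i))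
    (hK.linear_image (hatI i)) h0 h1
  rw [hatI_volume, ← drp_eq] at hproj
  have h2 := ENNReal.toReal_mono (ENNReal.mul_ne_top (ENNReal.natCast_ne_top _)
    hKc.measure_lt_top.ne) hproj
  rw [ENNReal.toReal_mul] at h2
  simp only [Module.finrank_fintype_fun_eq_card, Fintype.card_fin, Nat.reduceAdd,
    ENNReal.toReal_natCast] at h2
  exact_mod_cast h2

/-- The supremum of the volumes of hulls of `K` and a translate meeting `K`. -/
noncomputable def supHull {n : ℕ} (K : Set (Fin n → ℝ)) : ENNReal :=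
  ⨆ (p : Fin n → ℝ) (_ : ((p +ᵥ K) ∩ K).Nonempty), volume (convexHull ℝ (K ∪ (p +ᵥ K)))

theorem chord_meets {n : ℕ} {K : Set (Fin n → ℝ)} {p a : Fin n → ℝ} (ha : a ∈ K)
    (ha1 : a + p ∈ K) : ((p +ᵥ K) ∩ K).Nonempty :=
  ⟨a + p, ⟨a, ha, by simp [add_comm]⟩, ha1⟩

/-- normalized version -/
theorem diff_le_normalized {K : Set (Fin 3 → ℝ)} (hKc : IsCompact K) (hK : Convex ℝ K)
    (hKn : K.Nonempty)
    (h1 : ∀ x ∈ K, ∀ y ∈ K, ∀ i, x i - y i ≤ 1)
    (h2 : ∀ i : Fin 3, ∃ a ∈ K, a + Pi.single i 1 ∈ K) :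
    volume (K - K) ≤ 5 * supHull K := by
  by_cases htop : supHull K = ⊤
  · rw [htop]; simp
  have hb := W3_one_le hKc hK hKn h1
  have hs : ∀ i : Fin 3, (volume K).toReal + mr i K ≤ (supHull K).toReal := by
    intro i
    obtain ⟨a, ha, ha1⟩ := h2 i
    have h3 : volume (seg i 1 K) ≤ supHull K := by
      refine le_trans (measure_mono (seg_subset_hull i K)) ?_
      exact le_iSup_of_le _ (le_iSup_of_le (chord_meets ha ha1) le_rfl)
    have h4 := ENNReal.toReal_mono htop h3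
    rwa [toReal_volume_seg i zero_le_one hKc hK, one_mul] at h4
  have hm : ∀ i : Fin 3, mr i K ≤ 3 * (volume K).toReal := by
    intro i
    obtain ⟨a, ha, ha1⟩ := h2 i
    exact mr_le hKc hK i ha ha1
  have hdiff : K - K = K + (1:ℝ) • (-K) := by rw [one_smul, sub_eq_add_neg]
  have hfin : volume (K - K) ≠ ⊤ := by
    rw [hdiff, one_smul]
    exact (hKc.add hKc.neg).measure_lt_top.ne
  rw [← ENNReal.toReal_le_toReal hfin (ENNReal.mul_ne_top (by simp) htop), ENNReal.toReal_mul]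
  have h5 : (5 : ENNReal).toReal = 5 := by simp
  rw [h5, hdiff]
  change W3 K (-K) 1 ≤ _
  have := hs 0; have := hs 1; have := hs 2
  have := hm 0; have := hm 1; have := hm 2
  linarith

/-- Auerbach system -/
theorem exists_auerbach {D : Set (Fin 3 → ℝ)} (hDc : IsCompact D) (hD0 : D ∈ 𝓝 (0 : Fin 3 → ℝ)) :
    ∃ p : Fin 3 → (Fin 3 → ℝ), (∀ i, p i ∈ D) ∧ (Matrix.of p).det ≠ 0 ∧
      ∀ x : Fin 3 → ℝ, (∑ j, x j • p j) ∈ D → ∀ i, |x i| ≤ 1 := by
  obtain ⟨ε, hε, hball⟩ := Metric.mem_nhds_iff.mp hD0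
  have hsm : ∀ i : Fin 3, (Pi.single i (ε / 2) : Fin 3 → ℝ) ∈ D := by
    intro i
    apply hball
    rw [mem_ball_zero_iff, Pi.norm_single, Real.norm_of_nonneg (by positivity)]
    linarith
  have hc : IsCompact (Set.pi univ (fun _ : Fin 3 => D)) := isCompact_univ_pi fun _ => hDc
  have hne : (Set.pi univ (fun _ : Fin 3 => D)).Nonempty :=
    ⟨fun i => Pi.single i (ε / 2), fun i _ => hsm i⟩
  have hcont : Continuous (fun p : Fin 3 → (Fin 3 → ℝ) => |(Matrix.of p).det|) := by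
    apply Continuous.abs
    apply Continuous.matrix_det
    exact continuous_id
  obtain ⟨p, hp, hmax⟩ := hc.exists_isMaxOn hne hcont.continuousOn
  have hpD : ∀ i, p i ∈ D := fun i => hp i (mem_univ i)
  have hdet : (Matrix.of p).det ≠ 0 := by
    intro h0
    have h1 := hmax (show (fun i : Fin 3 => (Pi.single i (ε / 2) : Fin 3 → ℝ)) ∈
      Set.pi univ (fun _ : Fin 3 => D) from fun i _ => hsm i)
    simp only [mem_ofPred_eq] at h1
    rw [h0, abs_zero] at h1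
    have h2 : (Matrix.of (fun i : Fin 3 => (Pi.single i (ε / 2) : Fin 3 → ℝ))).det = (ε / 2) ^ 3 := by
      have : Matrix.of (fun i : Fin 3 => (Pi.single i (ε / 2) : Fin 3 → ℝ)) =
          Matrix.diagonal (fun _ => ε / 2) := by
        ext i j
        simp only [Matrix.of_apply, Matrix.diagonal_apply, Pi.single_apply]
        by_cases h : i = j
        · simp [h]
        · have h' : ¬ j = i := fun h2 => h h2.symm
          simp [h, h']
      rw [this, Matrix.det_diagonal]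
      simp only [Finset.prod_const, Finset.card_univ, Fintype.card_fin]
    rw [h2] at h1
    have : 0 < |(ε / 2) ^ 3| := by positivity
    linarith
  refine ⟨p, hpD, hdet, ?_⟩
  intro x hx i
  have h1 := hmax (show Function.update p i (∑ j, x j • p j) ∈
      Set.pi univ (fun _ : Fin 3 => D) from fun j _ => by
        by_cases h : j = i
        · subst h; simpa using hx
        · rw [Function.update_of_ne h]; exact hpD j)
  simp only [mem_ofPred_eq] at h1
  have h2 : (Matrix.of (Function.update p i (∑ j, x j • p j))).det = x i * (Matrix.of p).det := by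
    have := Matrix.det_updateRow_sum (Matrix.of p) i x
    rw [smul_eq_mul] at this
    exact this
  rw [h2, abs_mul] at h1
  have h3 : 0 < |(Matrix.of p).det| := abs_pos.mpr hdet
  nlinarith

theorem supHull_linear {n : ℕ} (A : (Fin n → ℝ) ≃ₗ[ℝ] (Fin n → ℝ)) (K : Set (Fin n → ℝ)) :
    ENNReal.ofReal |LinearMap.det (A : (Fin n → ℝ) →ₗ[ℝ] (Fin n → ℝ))| * supHull K ≤ supHull (A '' K) := by
  rw [supHull, ENNReal.mul_iSup]
  refine iSup_le fun p => ?_
  rw [ENNReal.mul_iSup]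
  refine iSup_le fun hp => ?_
  have himg : ∀ S : Set (Fin n → ℝ), A '' (p +ᵥ S) = A p +ᵥ (A '' S) := by
    intro S
    ext q
    constructor
    · rintro ⟨_, ⟨f, hf, rfl⟩, rfl⟩
      exact ⟨A f, ⟨f, hf, rfl⟩, by simp⟩
    · rintro ⟨_, ⟨f, hf, rfl⟩, rfl⟩
      exact ⟨p + f, ⟨f, hf, rfl⟩, by simp⟩
  have hp' : ((A p +ᵥ (A '' K)) ∩ (A '' K)).Nonempty := by
    rw [← himg]
    obtain ⟨x, hx1, hx2⟩ := hp
    exact ⟨A x, ⟨x, hx1, rfl⟩, ⟨x, hx2, rfl⟩⟩
  have hh : (A : (Fin n → ℝ) →ₗ[ℝ] (Fin n → ℝ)) '' (convexHull ℝ (K ∪ (p +ᵥ K))) =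
      convexHull ℝ ((A '' K) ∪ (A p +ᵥ (A '' K))) := by
    rw [LinearMap.image_convexHull, image_union, ← himg]
    rfl
  rw [← Measure.addHaar_image_linearMap, hh]
  exact le_iSup_of_le (A p) (le_iSup_of_le hp' le_rfl)

theorem diff_nhds {n : ℕ} {K : Set (Fin n → ℝ)} (hK : (interior K).Nonempty) :
    K - K ∈ 𝓝 (0 : Fin n → ℝ) := by
  obtain ⟨x, hx⟩ := hK
  have h1 : K - {x} ⊆ K - K := by
    rintro _ ⟨a, ha, b, hb, rfl⟩
    rw [mem_singleton_iff] at hb
    subst hb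
    exact ⟨a, ha, b, interior_subset hx, rfl⟩
  apply Filter.mem_of_superset _ h1
  have hK' : K ∈ 𝓝 x := mem_interior_iff_mem_nhds.mp hx
  have : (fun y => y + x) ⁻¹' K ∈ 𝓝 (0 : Fin n → ℝ) := by
    apply (continuous_id.add continuous_const).continuousAt.preimage_mem_nhds
    simpa using hK'
  apply Filter.mem_of_superset this
  intro y hy
  exact ⟨y + x, hy, x, rfl, by simp⟩

/-- Main inequality. -/
theorem diff_le {K : Set (Fin 3 → ℝ)} (hKc : IsCompact K) (hK : Convex ℝ K)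
    (hKi : (interior K).Nonempty) : volume (K - K) ≤ 5 * supHull K := by
  have hDc : IsCompact (K - K) := by
    rw [sub_eq_add_neg]
    exact hKc.add hKc.neg
  obtain ⟨p, hp, hdet, hx⟩ := exists_auerbach hDc (diff_nhds hKi)
  have hdet' : LinearMap.det (vL p) ≠ 0 := by rwa [vL_det]
  let A : (Fin 3 → ℝ) ≃ₗ[ℝ] (Fin 3 → ℝ) := LinearMap.equivOfDetNeZero (vL p) hdet'
  have hA : ∀ x, A x = vL p x := fun x => rfl
  have hAL : (A : (Fin 3 → ℝ) →ₗ[ℝ] (Fin 3 → ℝ)) = vL p := rfl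
  set Kt := A.symm '' K with hKt
  have hKtc : IsCompact Kt := hKc.image (LinearMap.continuous_of_finiteDimensional
    (A.symm : (Fin 3 → ℝ) →ₗ[ℝ] (Fin 3 → ℝ)))
  have hKtconv : Convex ℝ Kt := hK.linear_image
    (A.symm : (Fin 3 → ℝ) →ₗ[ℝ] (Fin 3 → ℝ))
  have hAK : A '' Kt = K := by
    rw [hKt, image_image]
    simp
  have hKn : K.Nonempty := hKi.mono interior_subset
  have hKtn : Kt.Nonempty := hKn.image _
  have hmem : ∀ x ∈ Kt, A x ∈ K := by
    intro x hx'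
    rw [← hAK]
    exact ⟨x, hx', rfl⟩
  have hd : ∀ x ∈ Kt, ∀ y ∈ Kt, ∀ i, x i - y i ≤ 1 := by
    intro x hx' y hy' i
    have h1 : (∑ j, (x - y) j • p j) ∈ K - K := by
      rw [← vL_apply, ← hA, map_sub]
      exact ⟨A x, hmem x hx', A y, hmem y hy', rfl⟩
    exact (abs_le.mp (hx _ h1 i)).2
  have hch : ∀ i : Fin 3, ∃ a ∈ Kt, a + Pi.single i 1 ∈ Kt := by
    intro i
    obtain ⟨b, hb, c, hc, hbc⟩ := hp i
    refine ⟨A.symm c, ⟨c, hc, rfl⟩, b, hb, ?_⟩
    have : b = c + p i := by rw [← hbc]; simp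
    rw [this, map_add]
    congr 1
    rw [LinearEquiv.symm_apply_eq, hA, vL_single, one_smul]
  have hnorm := diff_le_normalized hKtc hKtconv hKtn hd hch
  have hlin := supHull_linear A Kt
  rw [hAK] at hlin
  have hdiff : (A : (Fin 3 → ℝ) →ₗ[ℝ] (Fin 3 → ℝ)) '' (Kt - Kt) = K - K := by
    have : (A : (Fin 3 → ℝ) →ₗ[ℝ] (Fin 3 → ℝ)) '' (Kt - Kt) = A '' Kt - A '' Kt :=
      image_sub A
    rw [this, hAK]
  rw [← hdiff, Measure.addHaar_image_linearMap]
  calc _ ≤ ENNReal.ofReal |LinearMap.det (A : (Fin 3 → ℝ) →ₗ[ℝ] (Fin 3 → ℝ))| * (5 * supHull Kt) := by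
        gcongr
    _ = 5 * (ENNReal.ofReal |LinearMap.det (A : (Fin 3 → ℝ) →ₗ[ℝ] (Fin 3 → ℝ))| * supHull Kt) := by
        ring
    _ ≤ _ := by gcongr

end Pool.Agent.Lib.MP_87489e_co
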